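import Mathlib
import Pool.Agent.Q190.SV.Ex
import Pool.Agent.W763.Tr.Pd
import Pool.Agent.W763.Tr.Herg

/-!
# Conditionally negative definite functions on a group and their restrictions to cyclic subgroups
-/

set_option autoImplicit false

open MeasureTheory Finset
open scoped ComplexOrder

namespace Pool.Agent.H104.SVT

open Pool.Agent.W763.Tr (PD)
open Pool.Agent.Q190.SV (CND)

variable {Γ : Type*} [Group Γ]

/-- real valued conditionally negative definite functions on a group, zero at the identity -/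
def CN (ψ : Γ → ℝ) : Prop :=
  ψ 1 = 0 ∧ (∀ g, ψ g⁻¹ = ψ g) ∧ ∀ (s : Finset Γ) (c : Γ → ℝ), ∑ i ∈ s, c i = 0 →
    ∑ i ∈ s, ∑ j ∈ s, c i * c j * ψ (j⁻¹ * i) ≤ 0

lemma CN.family {ψ : Γ → ℝ} (h : CN ψ) {ι : Type*} (s : Finset ι) (x : ι → Γ) (a : ι → ℝ)
    (ha : ∑ i ∈ s, a i = 0) : ∑ i ∈ s, ∑ j ∈ s, a i * a j * ψ ((x j)⁻¹ * x i) ≤ 0 := by
  classical
  have h1 : ∀ F : Γ → ℝ, ∑ g ∈ s.image x, (∑ i ∈ s with x i = g, a i) * F g =
      ∑ i ∈ s, a i * F (x i) := by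
    intro F
    have := Finset.sum_fiberwise_of_maps_to (s := s) (t := s.image x) (g := x)
      (fun i hi => mem_image_of_mem x hi) (fun i => a i * F (x i))
    rw [← this]
    refine sum_congr rfl fun g _ => ?_
    rw [sum_mul]
    refine sum_congr rfl fun i hi => ?_
    rw [(mem_filter.1 hi).2]
  have h0 : ∑ g ∈ s.image x, (∑ i ∈ s with x i = g, a i) = 0 := by
    have := h1 (fun _ => 1)
    simp only [mul_one] at this
    rw [this, ha]
  refine le_of_eq_of_le ?_ (h.2.2 (s.image x) (fun g => ∑ i ∈ s with x i = g, a i) h0)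
  have h3 : ∀ i : Γ, ∑ j ∈ s.image x, (∑ k ∈ s with x k = i, a k) * (∑ k ∈ s with x k = j, a k) * ψ (j⁻¹ * i) =
      (∑ k ∈ s with x k = i, a k) * ∑ j ∈ s, a j * ψ ((x j)⁻¹ * i) := by
    intro i
    have := h1 (fun j => ψ (j⁻¹ * i))
    rw [← this, mul_sum]
    refine sum_congr rfl fun j _ => ?_
    ring
  rw [sum_congr rfl fun i _ => h3 i, h1]
  refine sum_congr rfl fun i _ => ?_
  rw [mul_sum]
  refine sum_congr rfl fun j _ => ?_
  ring

lemma CN.cnd {ψ : Γ → ℝ} (h : CN ψ) (g : Γ) : CND (fun n : ℤ => ψ (g ^ n)) := by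
  refine ⟨by simp [h.1], fun n => by simp only [zpow_neg]; exact h.2.1 _, fun S c hc => ?_⟩
  have := h.family S (fun n : ℤ => g ^ n) c hc
  refine le_of_eq_of_le ?_ this
  refine sum_congr rfl fun i _ => sum_congr rfl fun j _ => ?_
  rw [← zpow_neg, ← zpow_add]
  congr 2
  ring_nf

/-- `1 - Re φ` -/
lemma cn_one_sub {φ : Γ → ℂ} (h : PD φ) (h1 : φ 1 = 1) : CN (fun g => 1 - (φ g).re) := by
  refine ⟨by simp [h1], fun g => ?_, fun s c hc => ?_⟩
  · change 1 - (φ g⁻¹).re = 1 - (φ g).re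
    rw [h.inv h1]; simp
  have h2 := (Complex.nonneg_iff.1 (h s (fun g => (c g : ℂ)))).1
  have h3 : (∑ i ∈ s, ∑ j ∈ s, star ((c j : ℝ) : ℂ) * ((c i : ℝ) : ℂ) * φ (j⁻¹ * i)).re =
      ∑ i ∈ s, ∑ j ∈ s, c i * c j * (φ (j⁻¹ * i)).re := by
    rw [Complex.re_sum]
    refine sum_congr rfl fun i _ => ?_
    rw [Complex.re_sum]
    refine sum_congr rfl fun j _ => ?_
    have : star ((c j : ℝ) : ℂ) * ((c i : ℝ) : ℂ) = ((c i * c j : ℝ) : ℂ) := by
      rw [Complex.star_def, Complex.conj_ofReal]; push_cast; ring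
    rw [this, Complex.re_ofReal_mul]
  rw [h3] at h2
  have h4 : ∑ i ∈ s, ∑ j ∈ s, c i * c j * (1 - (φ (j⁻¹ * i)).re) =
      (∑ i ∈ s, c i) * (∑ j ∈ s, c j) - ∑ i ∈ s, ∑ j ∈ s, c i * c j * (φ (j⁻¹ * i)).re := by
    rw [sum_mul_sum, ← sum_sub_distrib]
    refine sum_congr rfl fun i _ => ?_
    rw [← sum_sub_distrib]
    refine sum_congr rfl fun j _ => ?_
    ring
  rw [h4, hc]
  linarith

/-- the squared modulus of a positive definite function is positive definite -/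
lemma pd_sq {φ : Γ → ℂ} (h : PD φ) (h1 : φ 1 = 1) : PD (fun g => ((‖φ g‖ ^ 2 : ℝ) : ℂ)) := by
  classical
  intro s c
  let M : Matrix s s ℂ := Matrix.of fun j i => φ ((j : Γ)⁻¹ * (i : Γ))
  have hM : M.PosSemidef := by
    rw [Matrix.posSemidef_iff_dotProduct_mulVec]
    refine ⟨?_, fun x => ?_⟩
    · ext i j
      simp only [M, Matrix.conjTranspose_apply, Matrix.of_apply]
      rw [← h.inv h1]
      congr 1
      group
    · have h2 := h.family (univ : Finset s) (fun i => (i : Γ)) x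
      refine le_of_le_of_eq h2 ?_
      rw [sum_comm]
      simp only [dotProduct, Matrix.mulVec, M, Matrix.of_apply, Pi.star_apply, mul_sum]
      exact sum_congr rfl fun i _ => sum_congr rfl fun j _ => by ring
  have hMT := hM.transpose
  have hH := hM.hadamard hMT
  rw [Matrix.posSemidef_iff_dotProduct_mulVec] at hH
  have h2 := hH.2 (fun i : s => c i)
  refine le_of_le_of_eq h2 ?_
  have h5 : ∀ a b : Γ, φ (a⁻¹ * b) * φ (b⁻¹ * a) = ((‖φ (a⁻¹ * b)‖ ^ 2 : ℝ) : ℂ) := by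
    intro a b
    have : b⁻¹ * a = (a⁻¹ * b)⁻¹ := by group
    rw [this, h.inv h1, Complex.star_def, Complex.mul_conj, Complex.normSq_eq_norm_sq]
  simp only [dotProduct, Matrix.mulVec, M, Matrix.hadamard_apply, Matrix.transpose_apply, Matrix.of_apply,
    Pi.star_apply, mul_sum, h5]
  rw [sum_comm]
  rw [← sum_coe_sort s (fun i => ∑ j ∈ s, star (c j) * c i * ((‖φ (j⁻¹ * i)‖ ^ 2 : ℝ) : ℂ))]
  refine sum_congr rfl fun i _ => ?_
  rw [← sum_coe_sort s (fun j => star (c j) * c i * ((‖φ (j⁻¹ * i)‖ ^ 2 : ℝ) : ℂ))]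
  refine sum_congr rfl fun j _ => ?_
  ring

/-- `1 - |φ|²` -/
lemma cn_one_sub_sq {φ : Γ → ℂ} (h : PD φ) (h1 : φ 1 = 1) : CN (fun g => 1 - ‖φ g‖ ^ 2) := by
  have := cn_one_sub (pd_sq h h1) (by simp [h1])
  simpa only [Complex.ofReal_re] using this

/-- the squared displacement of a point under an isometric action on a real Hilbert space -/
lemma cn_dist {E : Type*} [NormedAddCommGroup E] [InnerProductSpace ℝ E] (α : Γ →* (E ≃ᵢ E)) (x : E) :
    CN (fun g => dist (α g x) x ^ 2) := by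
  have key : ∀ i j : Γ, dist (α (j⁻¹ * i) x) x = dist (α i x) (α j x) := by
    intro i j
    rw [← (α j).dist_eq (α (j⁻¹ * i) x) x, ← IsometryEquiv.mul_apply, ← map_mul, mul_inv_cancel_left]
  refine ⟨by simp, fun g => ?_, fun s c hc => ?_⟩
  · have := key 1 g
    rw [mul_one, map_one, IsometryEquiv.coe_one, id] at this
    change dist (α g⁻¹ x) x ^ 2 = dist (α g x) x ^ 2
    rw [this, dist_comm]
  simp only [key]
  have h1 : ∀ i j : Γ, dist (α i x) (α j x) ^ 2 = ‖α i x‖ ^ 2 + ‖α j x‖ ^ 2 - 2 * inner ℝ (α i x) (α j x) := by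
    intro i j
    rw [dist_eq_norm, norm_sub_sq_real]; ring
  have h2 : ‖∑ i ∈ s, c i • α i x‖ ^ 2 = ∑ i ∈ s, ∑ j ∈ s, c i * c j * inner ℝ (α i x) (α j x) := by
    rw [← real_inner_self_eq_norm_sq, sum_inner]
    refine sum_congr rfl fun i _ => ?_
    rw [inner_sum]
    refine sum_congr rfl fun j _ => ?_
    rw [real_inner_smul_left, real_inner_smul_right]; ring
  have h3 : ∑ i ∈ s, ∑ j ∈ s, c i * c j * dist (α i x) (α j x) ^ 2 =
      (∑ i ∈ s, c i * ‖α i x‖ ^ 2) * (∑ j ∈ s, c j) + (∑ i ∈ s, c i) * (∑ j ∈ s, c j * ‖α j x‖ ^ 2)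
        - 2 * ∑ i ∈ s, ∑ j ∈ s, c i * c j * inner ℝ (α i x) (α j x) := by
    rw [sum_mul_sum, sum_mul_sum, mul_sum, ← sum_add_distrib, ← sum_sub_distrib]
    refine sum_congr rfl fun i _ => ?_
    rw [mul_sum, ← sum_add_distrib, ← sum_sub_distrib]
    refine sum_congr rfl fun j _ => ?_
    rw [h1]; ring
  rw [h3, hc, ← h2]
  have := sq_nonneg ‖∑ i ∈ s, c i • α i x‖
  linarith

/-- the spectral distribution of an element -/
lemma spectral {φ : Γ → ℂ} (h : PD φ) (h1 : φ 1 = 1) (g : Γ) :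
    ∃ μ : Measure UnitAddCircle, IsProbabilityMeasure μ ∧ ∀ n : ℤ, ∫ x, fourier n x ∂μ = φ (g ^ n) := by
  refine Pool.Agent.W763.Tr.herglotz (c := fun n => φ (g ^ n)) (by simp [h1]) fun N a => ?_
  have := h.family (Finset.range N) (fun n : ℕ => g ^ (n : ℤ)) a
  refine le_of_le_of_eq this ?_
  refine sum_congr rfl fun i _ => sum_congr rfl fun j _ => ?_
  rw [← zpow_neg, ← zpow_add]
  congr 3
  ring_nf

end Pool.Agent.H104.SVT
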