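import Mathlib
import Pool.Agent.TH463.UQ.Trace
import Pool.Agent.Y253.TR.Dict
import Pool.Agent.H104.SVT.Cnd

/-!
# Extreme traces whose measure has no atoms: vanishing off the translations and joint ergodicity
-/

set_option autoImplicit false

open MeasureTheory Filter Topology Finset
open scoped ComplexOrder ENNReal

namespace Pool.Agent.H104.SVT

open Pool.Agent.W763.Tr Pool.Agent.TH654.FC

section cs

variable {Γ : Type*} [Group Γ]

/-- Cauchy-Schwarz for positive definite functions -/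
lemma pd_cs {φ : Γ → ℂ} (h : PD φ) (h1 : φ 1 = 1) {ι : Type*} (s : Finset ι) (x : ι → Γ)
    (a : ι → ℂ) : ‖∑ i ∈ s, a i * φ (x i)‖ ^ 2 ≤
      (∑ i ∈ s, ∑ j ∈ s, star (a j) * a i * φ ((x j)⁻¹ * x i)).re := by
  classical
  obtain ⟨z, hz⟩ : ∃ z : ℂ, z = ∑ i ∈ s, a i * φ (x i) := ⟨_, rfl⟩
  rw [← hz]
  have h2 := h.family (Finset.insertNone s) (fun o : Option ι => o.elim 1 x)
    (fun o => o.elim (-z) a)
  rw [Finset.sum_insertNone] at h2
  simp only [Finset.sum_insertNone, Option.elim_none, Option.elim_some, inv_one, one_mul, mul_one,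
    h1] at h2
  have h3 : ∑ j ∈ s, star (a j) * -z * φ ((x j)⁻¹) = - (star z * z) := by
    have : star z = ∑ j ∈ s, star (a j) * φ ((x j)⁻¹) := by
      rw [hz, star_sum]
      refine sum_congr rfl fun j _ => ?_
      rw [star_mul', h.inv h1]
    rw [this, sum_mul, ← sum_neg_distrib]
    refine sum_congr rfl fun j _ => ?_
    ring
  have h4 : ∑ i ∈ s, (star (-z) * a i * φ (x i) +
      ∑ j ∈ s, star (a j) * a i * φ ((x j)⁻¹ * x i)) =
      - (star z * z) + ∑ i ∈ s, ∑ j ∈ s, star (a j) * a i * φ ((x j)⁻¹ * x i) := by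
    rw [sum_add_distrib]
    congr 1
    have : star z * z = ∑ i ∈ s, star z * (a i * φ (x i)) := by
      rw [← mul_sum, ← hz]
    rw [this, ← sum_neg_distrib]
    refine sum_congr rfl fun j _ => ?_
    rw [star_neg]; ring
  rw [h3, h4] at h2
  have h5 := (Complex.nonneg_iff.1 h2).1
  have h6 : (star z * z).re = ‖z‖ ^ 2 := by
    rw [Complex.star_def, mul_comm, Complex.mul_conj, Complex.normSq_eq_norm_sq, Complex.ofReal_re]
  have h7 : star (-z) * -z = star z * z := by rw [star_neg]; ring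
  rw [h7] at h5
  simp only [Complex.add_re, Complex.neg_re, h6] at h5
  linarith

end cs

/-- the quadratic form of the Fourier coefficients -/
lemma quad_eq (μ : Measure UnitAddCircle) [IsFiniteMeasure μ] {ι : Type*} (s : Finset ι)
    (c : ι → ℂ) (N : ι → ℤ) :
    ∑ i ∈ s, ∑ j ∈ s, star (c j) * c i * ∫ x, (fourier (N i - N j) x : ℂ) ∂μ =
      ((∫ x, ‖∑ i ∈ s, c i * (fourier (N i) x : ℂ)‖ ^ 2 ∂μ : ℝ) : ℂ) := by
  have hi : ∀ m : ℤ, Integrable (fun x : UnitAddCircle => (fourier m x : ℂ)) μ := fun m =>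
    (by fun_prop : Continuous (fun x : UnitAddCircle =>
      (fourier m x : ℂ))).integrable_of_hasCompactSupport (HasCompactSupport.of_compactSpace _)
  have hsq : ∀ x : UnitAddCircle, ((‖∑ i ∈ s, c i * (fourier (N i) x : ℂ)‖ ^ 2 : ℝ) : ℂ) =
      ∑ i ∈ s, ∑ j ∈ s, star (c j) * c i * fourier (N i - N j) x := by
    intro x
    have e1 : ((‖∑ i ∈ s, c i * (fourier (N i) x : ℂ)‖ ^ 2 : ℝ) : ℂ) =
        (∑ i ∈ s, c i * (fourier (N i) x : ℂ)) * starRingEnd ℂ (∑ i ∈ s, c i * (fourier (N i) x : ℂ)) := by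
      rw [Complex.mul_conj, Complex.normSq_eq_norm_sq]
    rw [e1, map_sum, sum_mul_sum]
    refine sum_congr rfl fun i _ => sum_congr rfl fun j _ => ?_
    rw [map_mul, ← fourier_neg]
    have e2 : fourier (N i - N j) x = fourier (N i) x * fourier (-(N j)) x := by
      rw [← fourier_add]; congr 1
    rw [e2, Complex.star_def]; ring
  rw [← integral_complex_ofReal]
  simp only [hsq]
  rw [integral_finsetSum]
  · refine sum_congr rfl fun i _ => ?_
    rw [integral_finsetSum]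
    · exact sum_congr rfl fun j _ => (integral_const_mul _ _).symm
    · exact fun j _ => (hi _).const_mul _
  · exact fun i _ => integrable_finsetSum _ fun j _ => (hi _).const_mul _

/-- averages of the powers of a complex number of modulus one -/
lemma avg_pow {z : ℂ} (hz : ‖z‖ = 1) (hz1 : z ≠ 1) :
    Tendsto (fun N : ℕ => ∑ i ∈ range N, ((N : ℂ)⁻¹) * z ^ i) atTop (𝓝 0) := by
  have hz0 : z - 1 ≠ 0 := sub_ne_zero.2 hz1
  have hzn : 0 < ‖z - 1‖ := norm_pos_iff.2 hz0
  refine squeeze_zero_norm (a := fun N : ℕ => (2 / ‖z - 1‖) * (N : ℝ)⁻¹) (fun N => ?_) ?_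
  · rw [← mul_sum, geom_sum_eq hz1, norm_mul, norm_inv, norm_div, Complex.norm_natCast, mul_comm]
    refine mul_le_mul_of_nonneg_right ?_ (by positivity)
    refine div_le_div_of_nonneg_right ?_ hzn.le
    calc ‖z ^ N - 1‖ ≤ ‖z ^ N‖ + ‖(1 : ℂ)‖ := norm_sub_le _ _
      _ = 2 := by rw [norm_pow, hz]; norm_num
  · have := (tendsto_inv_atTop_nhds_zero_nat (𝕜 := ℝ)).const_mul (2 / ‖z - 1‖)
    rwa [mul_zero] at this

lemma fourier_mul_pow (D : ℤ) (i : ℕ) (x : UnitAddCircle) :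
    (fourier (D * i) x : ℂ) = (fourier D x : ℂ) ^ i := by
  rw [fourier_apply, fourier_apply, mul_comm, mul_smul, natCast_zsmul, AddCircle.toCircle_nsmul]
  simp

lemma norm_fourier (m : ℤ) (x : UnitAddCircle) : ‖(fourier m x : ℂ)‖ = 1 := by
  rw [fourier_apply]; simp

lemma fourier_eq_one_iff {D : ℤ} {x : UnitAddCircle} : (fourier D x : ℂ) = 1 ↔ D • x = 0 := by
  rw [fourier_apply]
  constructor
  · intro h
    have h1 : AddCircle.toCircle (D • x) = 1 := Circle.ext (by rw [h]; simp)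
    exact (AddCircle.injective_toCircle one_ne_zero) (by rw [h1]; simp)
  · intro h; rw [h]; simp

lemma null_tors {μ : Measure UnitAddCircle} (hat : ∀ x, μ {x} = 0) {D : ℤ} (hD : D ≠ 0) :
    μ {x : UnitAddCircle | D • x = 0} = 0 := by
  have : NullSingletonClass μ := ⟨hat⟩
  refine measure_mono_null ?_ (tors_countable.measure_zero μ)
  intro x hx
  refine ⟨D.natAbs, by omega, ?_⟩
  have h0 : D • x = 0 := hx
  rcases Int.natAbs_eq D with h | h
  · rw [h, natCast_zsmul] at h0; exact h0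
  · rw [h, neg_smul, natCast_zsmul, neg_eq_zero] at h0; exact h0

/-- the mean square of the averages of the characters tends to zero if there are no atoms -/
lemma avg_sq {μ : Measure UnitAddCircle} [IsProbabilityMeasure μ] (hat : ∀ x, μ {x} = 0) {D : ℤ}
    (hD : D ≠ 0) :
    Tendsto (fun N : ℕ => ∫ x, ‖∑ i ∈ range N, ((N : ℂ)⁻¹) * (fourier (D * i) x : ℂ)‖ ^ 2 ∂μ)
      atTop (𝓝 0) := by
  have h0 : (0 : ℝ) = ∫ _x : UnitAddCircle, (0 : ℝ) ∂μ := by simp
  rw [h0]
  refine tendsto_integral_of_dominated_convergence (fun _ => (1 : ℝ)) (fun N => ?_)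
    (integrable_const _) (fun N => Eventually.of_forall fun x => ?_) ?_
  · exact (by fun_prop : Continuous (fun x : UnitAddCircle =>
      ‖∑ i ∈ range N, ((N : ℂ)⁻¹) * (fourier (D * i) x : ℂ)‖ ^ 2)).aestronglyMeasurable
  · rw [norm_pow, norm_norm]
    refine pow_le_one₀ (norm_nonneg _) ?_
    refine (norm_sum_le _ _).trans ?_
    simp only [norm_mul, norm_fourier, mul_one, norm_inv, Complex.norm_natCast, sum_const, card_range,
      nsmul_eq_mul]
    by_cases hN : N = 0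
    · simp [hN]
    · rw [mul_inv_cancel₀ (by exact_mod_cast hN)]
  · have hnull : ∀ᵐ x ∂μ, ¬ (D • x = 0) := by
      rw [ae_iff]
      simpa using null_tors hat hD
    filter_upwards [hnull] with x hx
    have h1 := avg_pow (norm_fourier D x) (fun h => hx (fourier_eq_one_iff.1 h))
    simp only [fourier_mul_pow]
    have h2 := h1.norm.pow 2
    simpa using h2

section

variable {G : Subgroup (Equiv.Perm ℚ)} {τ : ℤ → G} {φ : G → ℂ} {S6 : G} {μ : Measure UnitAddCircle}

/-- **Vanishing off the translations.** -/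
lemma off_trans (D : Data G τ φ S6 μ) (hat : ∀ x, μ {x} = 0) {g : G}
    (hg : ¬ ∃ r : ℚ, ∀ x : ℚ, (g : Equiv.Perm ℚ) x = x + r) : φ g = 0 := by
  have := D.prob
  obtain ⟨a, b, r, ⟨n, k, hr⟩, hx⟩ := D.hform g
  set lam : ℚ := 2 ^ a * 3 ^ b with hlam
  have h : lam ≠ 1 := by
    intro h
    exact hg ⟨r, fun x => by rw [hx, h, one_mul]⟩
  have hd : (1 - lam).num ≠ 0 := by
    rw [Rat.num_ne_zero, sub_ne_zero]
    exact fun e => h e.symm
  have hnum : (1 - lam) * (1 - lam).den = (1 - lam).num := Rat.mul_den_eq_num _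
  set v : ℤ := ((1 - lam).den : ℤ) with hv
  set D0 : ℤ := (1 - lam).num with hD
  have hnum' : (1 - lam) * (v : ℚ) = D0 := by
    rw [hv]; push_cast; exact hnum
  have hconj : ∀ i : ℤ, φ (τ (D0 * i) * g) = φ g := by
    intro i
    have e : τ (v * i) * g * (τ (v * i))⁻¹ = τ (D0 * i) * g := by
      rw [mul_inv_eq_iff_eq_mul]
      apply Subtype.ext
      apply Equiv.ext
      intro x
      simp only [Subgroup.coe_mul, Equiv.Perm.mul_apply, D.hτ, hx]
      push_cast
      rw [← hnum']; ring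
    rw [← e, D.hcl]
  have hin : ∀ i j : ℕ, φ ((τ (D0 * (j : ℤ)) * g)⁻¹ * (τ (D0 * (i : ℤ)) * g)) =
      ∫ x, (fourier (D0 * i - D0 * j) x : ℂ) ∂μ := by
    intro i j
    have e : (τ (D0 * (j : ℤ)) * g)⁻¹ * (τ (D0 * (i : ℤ)) * g) =
        g⁻¹ * τ (D0 * ((i : ℤ) - j)) * (g⁻¹)⁻¹ := by
      rw [mul_inv_rev, tau_inv D.hτ, inv_inv]
      have : τ (D0 * ((i : ℤ) - j)) = τ (-(D0 * (j : ℤ))) * τ (D0 * (i : ℤ)) := by
        rw [tau_add D.hτ]; congr 1; ring
      rw [this]
      simp only [mul_assoc]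
    rw [e, D.hcl, D.hμ, mul_sub]
  have hN : ∀ N : ℕ, 1 ≤ N → ‖φ g‖ ^ 2 ≤
      ∫ x, ‖∑ i ∈ range N, ((N : ℂ)⁻¹) * (fourier (D0 * i) x : ℂ)‖ ^ 2 ∂μ := by
    intro N hN1
    have h1 := pd_cs D.hpd D.h1 (range N) (fun i : ℕ => τ (D0 * i) * g) (fun _ => (N : ℂ)⁻¹)
    simp only [hconj, hin] at h1
    rw [quad_eq μ (range N) (fun _ => (N : ℂ)⁻¹) (fun i : ℕ => D0 * i), Complex.ofReal_re] at h1
    rw [sum_const, card_range, nsmul_eq_mul, ← mul_assoc, mul_inv_cancel₀ (by exact_mod_cast (by omega : N ≠ 0)),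
      one_mul] at h1
    exact h1
  have h3 : ‖φ g‖ ^ 2 ≤ 0 := ge_of_tendsto (avg_sq hat hd) (by
    filter_upwards [eventually_ge_atTop 1] with N hN1 using hN N hN1)
  have h4 : ‖φ g‖ = 0 := by
    have := sq_nonneg ‖φ g‖
    exact pow_eq_zero_iff (two_ne_zero) |>.1 (le_antisymm h3 this)
  exact norm_eq_zero.1 h4

/-- conditional measures of invariant sets -/
lemma cond_mp {μ : Measure UnitAddCircle} [IsProbabilityMeasure μ] {p : ℕ}
    (h : MeasurePreserving (fun x : UnitAddCircle => p • x) μ μ) {A : Set UnitAddCircle}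
    (hA : MeasurableSet A) (hinv : (fun x : UnitAddCircle => p • x) ⁻¹' A = A) :
    MeasurePreserving (fun x : UnitAddCircle => p • x) (ProbabilityTheory.cond μ A)
      (ProbabilityTheory.cond μ A) := by
  refine ⟨h.measurable, ?_⟩
  ext B hB
  rw [Measure.map_apply h.measurable hB, ProbabilityTheory.cond_apply hA, ProbabilityTheory.cond_apply hA]
  congr 1
  rw [← h.measure_preimage (hA.inter hB).nullMeasurableSet, Set.preimage_inter, hinv]

/-- **Joint ergodicity.** -/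
lemma erg_of_ext {s2 s3 t : Equiv.Perm ℚ} (hs2 : ∀ x, s2 x = 2 * x) (hs3 : ∀ x, s3 x = 3 * x)
    (ht : ∀ x, t x = x + 1) (hG : G = Subgroup.closure {s2, s3, t})
    (D : Data G τ φ S6 μ) (hat : ∀ x, μ {x} = 0)
    (hext : φ ∈ Set.extremePoints ℝ {ψ : G → ℂ | ψ 1 = 1 ∧ (∀ g h : G, ψ (h * g * h⁻¹) = ψ g) ∧
        ∀ (s : Finset G) (c : G → ℂ), 0 ≤ ∑ i ∈ s, ∑ j ∈ s, star (c j) * c i * ψ (j⁻¹ * i)})
    {A : Set UnitAddCircle} (hA : MeasurableSet A)
    (h2 : (fun x : UnitAddCircle => 2 • x) ⁻¹' A = A) (h3 : (fun x : UnitAddCircle => 3 • x) ⁻¹' A = A) :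
    μ A = 0 ∨ μ A = 1 := by
  have := D.prob
  by_contra hcon
  push Not at hcon
  obtain ⟨hA0, hA1⟩ := hcon
  have hAc0 : μ Aᶜ ≠ 0 := by
    intro h0
    exact hA1 ((prob_compl_eq_zero_iff hA).1 h0)
  have p1 : IsProbabilityMeasure (ProbabilityTheory.cond μ A) :=
    ProbabilityTheory.cond_isProbabilityMeasure hA0
  have p2 : IsProbabilityMeasure (ProbabilityTheory.cond μ Aᶜ) :=
    ProbabilityTheory.cond_isProbabilityMeasure hAc0
  obtain ⟨f, f1, f2, f3, f4, f5⟩ := Pool.Agent.Y253.TR.trace_of_measure hs2 hs3 ht hG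
    (ProbabilityTheory.cond μ A) (cond_mp D.mp2 hA h2) (cond_mp D.mp3 hA h3)
  obtain ⟨f', f1', f2', f3', f4', f5'⟩ := Pool.Agent.Y253.TR.trace_of_measure hs2 hs3 ht hG
    (ProbabilityTheory.cond μ Aᶜ) (cond_mp D.mp2 hA.compl (by rw [Set.preimage_compl, h2]))
      (cond_mp D.mp3 hA.compl (by rw [Set.preimage_compl, h3]))
  have hint : ∀ m : ℤ, ∫ x, (fourier m x : ℂ) ∂μ =
      (μ.real A : ℂ) * ∫ x, (fourier m x : ℂ) ∂(ProbabilityTheory.cond μ A) +
      (μ.real Aᶜ : ℂ) * ∫ x, (fourier m x : ℂ) ∂(ProbabilityTheory.cond μ Aᶜ) := by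
    intro m
    have hi : Integrable (fun x : UnitAddCircle => (fourier m x : ℂ)) μ :=
      (by fun_prop : Continuous (fun x : UnitAddCircle =>
        (fourier m x : ℂ))).integrable_of_hasCompactSupport (HasCompactSupport.of_compactSpace _)
    rw [← integral_add_compl hA hi, ProbabilityTheory.cond, ProbabilityTheory.cond,
      integral_smul_measure, integral_smul_measure]
    have e1 : μ.real A ≠ 0 := by
      rw [Measure.real]; exact ENNReal.toReal_ne_zero.2 ⟨hA0, measure_ne_top _ _⟩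
    have e2 : μ.real Aᶜ ≠ 0 := by
      rw [Measure.real]; exact ENNReal.toReal_ne_zero.2 ⟨hAc0, measure_ne_top _ _⟩
    simp only [ENNReal.toReal_inv, ← Measure.real_def, Complex.real_smul, Complex.ofReal_inv]
    have e1' : (μ.real A : ℂ) ≠ 0 := by exact_mod_cast e1
    have e2' : (μ.real Aᶜ : ℂ) ≠ 0 := by exact_mod_cast e2
    rw [← mul_assoc, ← mul_assoc, mul_inv_cancel₀ e1', mul_inv_cancel₀ e2', one_mul, one_mul]
  have hcomb : φ = (μ.real A) • f + (μ.real Aᶜ) • f' := by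
    funext g
    simp only [Pi.add_apply, Pi.smul_apply, Complex.real_smul]
    by_cases hg : ∃ r : ℚ, ∀ x, (g : Equiv.Perm ℚ) x = x + r
    · obtain ⟨r, hr⟩ := hg
      obtain ⟨n, k, rfl⟩ := D.six hr
      rw [f4 g n k hr, f4' g n k hr, ← hint, D.hμ]
      exact phi_trans D.hτ D.hcl S6 D.hS6 g n k hr
    · rw [off_trans D hat hg, f5 g hg, f5' g hg]; simp
  have hsum : μ.real A + μ.real Aᶜ = 1 := by
    rw [measureReal_add_measureReal_compl hA]
    simp
  have hpos1 : 0 < μ.real A := by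
    rw [Measure.real]; exact ENNReal.toReal_pos hA0 (measure_ne_top _ _)
  have hpos2 : 0 < μ.real Aᶜ := by
    rw [Measure.real]; exact ENNReal.toReal_pos hAc0 (measure_ne_top _ _)
  have hfe : f = φ := by
    rw [mem_extremePoints] at hext
    exact (hext.2 f ⟨f1, f2, f3⟩ f' ⟨f1', f2', f3'⟩ ⟨μ.real A, μ.real Aᶜ, hpos1, hpos2, hsum, hcomb.symm⟩).1
  have hme : ProbabilityTheory.cond μ A = μ := by
    refine Q123.CV.ext_fourier fun m => ?_
    have hm : ∀ x, (τ m : Equiv.Perm ℚ) x = x + (m : ℚ) / 6 ^ 0 := by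
      intro x; rw [D.hτ]; simp
    have e1 := f4 (τ m) m 0 hm
    rw [hfe, ← D.hμ] at e1
    exact e1.symm
  have h0 : ProbabilityTheory.cond μ A Aᶜ = 0 := by
    rw [ProbabilityTheory.cond_apply hA]; simp
  rw [hme] at h0
  exact hAc0 h0

end

end Pool.Agent.H104.SVT
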