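import Mathlib
import Pool.Agent.Q190.SV.Ex
import Pool.Agent.Q190.SV.Arc
import Pool.Agent.H104.SVT.Cnd

/-!
# Slow variation along the powers of the translations
-/

set_option autoImplicit false

open MeasureTheory Finset
open scoped ComplexOrder

namespace Pool.Agent.H104.SVT

open Pool.Agent.W763.Tr (PD)
open Pool.Agent.Q190.SV (CND Inv)

lemma two_gen : Pool.Agent.H819.TwoGen 2 3 :=
  ⟨2, 3, 1, 0, 0, 1, le_rfl, by norm_num, by norm_num, by norm_num, by norm_num, by norm_num⟩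

variable {G : Subgroup (Equiv.Perm ℚ)}

lemma pow_apply {g : G} {r : ℚ} (hg : ∀ x : ℚ, (g : Equiv.Perm ℚ) x = x + r) (n : ℕ) (x : ℚ) :
    ((g ^ n : G) : Equiv.Perm ℚ) x = x + n * r := by
  induction n generalizing x with
  | zero => simp
  | succ n ih =>
    rw [pow_succ, Subgroup.coe_mul, Equiv.Perm.mul_apply, hg, ih]
    push_cast; ring

lemma conj_eq {S : G} {p : ℕ} (hS : ∀ x : ℚ, (S : Equiv.Perm ℚ) x = p * x) {g : G}
    (hg : ∃ r : ℚ, ∀ x : ℚ, (g : Equiv.Perm ℚ) x = x + r) : S * g * S⁻¹ = g ^ p := by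
  obtain ⟨r, hr⟩ := hg
  rw [mul_inv_eq_iff_eq_mul]
  apply Subtype.ext
  apply Equiv.ext
  intro x
  rw [Subgroup.coe_mul, Subgroup.coe_mul, Equiv.Perm.mul_apply, Equiv.Perm.mul_apply, hr, hS, hS,
    pow_apply hr]
  ring

lemma inv_of_conj {β : Type*} {ψ : G → β} {S : G} {p : ℕ} (hS : ∀ x : ℚ, (S : Equiv.Perm ℚ) x = p * x)
    (hψ : ∀ h : G, ψ (S * h * S⁻¹) = ψ h) {g : G}
    (hg : ∃ r : ℚ, ∀ x : ℚ, (g : Equiv.Perm ℚ) x = x + r) (n : ℤ) : ψ (g ^ (n * p)) = ψ (g ^ n) := by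
  rw [mul_comm n, zpow_mul, zpow_natCast, ← conj_eq hS hg, conj_zpow, hψ]

/-- slow variation for conditionally negative definite functions -/
lemma slow_of {C ε : ℝ} {N₀ : ℕ} (h : ∀ ψ : ℤ → ℝ, CND ψ → (∀ n : ℤ, ψ (n * (2 : ℕ)) = ψ n) →
      (∀ n : ℤ, ψ (n * (3 : ℕ)) = ψ n) → ∀ N : ℕ, N₀ ≤ N →
      (∀ M : ℕ, N ≤ M → (M : ℝ) ≤ (N : ℝ) ^ C →
        (1 / (M : ℝ)) * ∑ m ∈ Finset.range M, ψ ((m + 1 : ℕ) : ℤ) ≤
          (1 + ε) * ((1 / (N : ℝ)) * ∑ m ∈ Finset.range N, ψ ((m + 1 : ℕ) : ℤ))) ∧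
      (∀ n : ℕ, (n : ℝ) ≤ (N : ℝ) ^ C →
        ψ n ≤ (2 + ε) * ((1 / (N : ℝ)) * ∑ m ∈ Finset.range N, ψ ((m + 1 : ℕ) : ℤ))))
    {s2 s3 t : Equiv.Perm ℚ} (hs2 : ∀ x, s2 x = 2 * x) (hs3 : ∀ x, s3 x = 3 * x)
    (hG : G = Subgroup.closure {s2, s3, t}) {ψ : G → ℝ} (hψ : CN ψ)
    (hinv : ∀ S : G, (S : Equiv.Perm ℚ) = s2 ∨ (S : Equiv.Perm ℚ) = s3 → ∀ h : G, ψ (S * h * S⁻¹) = ψ h)
    {g : G} (hg : ∃ r : ℚ, ∀ x : ℚ, (g : Equiv.Perm ℚ) x = x + r) {N : ℕ} (hN : N₀ ≤ N) :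
    (∀ M : ℕ, N ≤ M → (M : ℝ) ≤ (N : ℝ) ^ C →
        (1 / (M : ℝ)) * ∑ m ∈ Finset.range M, ψ (g ^ (m + 1)) ≤
          (1 + ε) * ((1 / (N : ℝ)) * ∑ m ∈ Finset.range N, ψ (g ^ (m + 1)))) ∧
      (∀ n : ℕ, (n : ℝ) ≤ (N : ℝ) ^ C →
        ψ (g ^ n) ≤ (2 + ε) * ((1 / (N : ℝ)) * ∑ m ∈ Finset.range N, ψ (g ^ (m + 1)))) := by
  have m2 : s2 ∈ G := by rw [hG]; exact Subgroup.subset_closure (by simp)
  have m3 : s3 ∈ G := by rw [hG]; exact Subgroup.subset_closure (by simp)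
  have k := h (fun n => ψ (g ^ n)) (hψ.cnd g)
    (inv_of_conj (S := ⟨s2, m2⟩) (fun x => by push_cast; exact hs2 x) (hinv _ (Or.inl rfl)) hg)
    (inv_of_conj (S := ⟨s3, m3⟩) (fun x => by push_cast; exact hs3 x) (hinv _ (Or.inr rfl)) hg) N hN
  simpa only [zpow_natCast] using k

/-- the spectral distribution of a translation under a trace is invariant -/
lemma spectral_inv {s2 s3 t : Equiv.Perm ℚ} (hs2 : ∀ x, s2 x = 2 * x) (hs3 : ∀ x, s3 x = 3 * x)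
    (hG : G = Subgroup.closure {s2, s3, t}) {φ : G → ℂ} (hcl : ∀ g h : G, φ (h * g * h⁻¹) = φ g)
    {g : G} (hg : ∃ r : ℚ, ∀ x : ℚ, (g : Equiv.Perm ℚ) x = x + r)
    {μ : Measure UnitAddCircle} [IsProbabilityMeasure μ] (hμ : ∀ n : ℤ, ∫ x, fourier n x ∂μ = φ (g ^ n)) :
    Inv 2 3 μ := by
  have m2 : s2 ∈ G := by rw [hG]; exact Subgroup.subset_closure (by simp)
  have m3 : s3 ∈ G := by rw [hG]; exact Subgroup.subset_closure (by simp)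
  refine ⟨Pool.Agent.Q190.SV.inv_of_coeff fun m => ?_, Pool.Agent.Q190.SV.inv_of_coeff fun m => ?_⟩
  · rw [hμ, hμ]
    exact inv_of_conj (S := ⟨s2, m2⟩) (fun x => by push_cast; exact hs2 x) (fun h => hcl h _) hg m
  · rw [hμ, hμ]
    exact inv_of_conj (S := ⟨s3, m3⟩) (fun x => by push_cast; exact hs3 x) (fun h => hcl h _) hg m

/-- displacement functions are invariant under conjugation by elements fixing the point -/
lemma dist_conj {Γ : Type*} [Group Γ] {E : Type*} [NormedAddCommGroup E] (α : Γ →* (E ≃ᵢ E)) {x : E}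
    {S : Γ} (hS : α S x = x) (h : Γ) : dist (α (S * h * S⁻¹) x) x ^ 2 = dist (α h x) x ^ 2 := by
  have h1 : α S⁻¹ x = x := by
    rw [map_inv]
    exact (IsometryEquiv.symm_apply_eq (α S)).2 hS.symm
  rw [map_mul, map_mul, IsometryEquiv.mul_apply, IsometryEquiv.mul_apply, h1]
  conv_lhs => rw [← hS]
  have e : α S (α h (α S x)) = α S (α h x) := by rw [hS]
  rw [hS]
  conv_lhs => enter [1, 2]; rw [← hS]
  rw [(α S).dist_eq]

end Pool.Agent.H104.SVT
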