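import Mathlib
import Pool.Agent.Q123.CW.Out
import Pool.Agent.H104.SVT.Off
import Pool.Agent.H104.SVT.Slow

/-!
# Products of an extreme trace with a diffuse trace
-/

set_option autoImplicit false

open MeasureTheory Filter Topology Finset
open scoped ComplexOrder ENNReal

namespace Pool.Agent.H104.SVT

open Pool.Agent.W763.Tr Pool.Agent.TH654.FC

/-! ### convolutions on the circle -/

lemma fourier_add_point (n : ℤ) (x y : UnitAddCircle) :
    (fourier n (x + y) : ℂ) = fourier n x * fourier n y := by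
  simp only [fourier_apply]
  rw [smul_add, AddCircle.toCircle_add]
  push_cast; ring

lemma int_fourier (m : ℤ) (μ : Measure UnitAddCircle) [IsFiniteMeasure μ] :
    Integrable (fun x : UnitAddCircle => (fourier m x : ℂ)) μ :=
  (by fun_prop : Continuous (fun x : UnitAddCircle =>
    (fourier m x : ℂ))).integrable_of_hasCompactSupport (HasCompactSupport.of_compactSpace _)

lemma fourier_conv (ρ ν : Measure UnitAddCircle) [IsProbabilityMeasure ρ] [IsProbabilityMeasure ν]
    (n : ℤ) : ∫ x, (fourier n x : ℂ) ∂(Measure.conv ρ ν) =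
      (∫ x, (fourier n x : ℂ) ∂ρ) * ∫ x, (fourier n x : ℂ) ∂ν := by
  rw [Measure.conv, integral_map (by fun_prop) (by fun_prop)]
  simp only [fourier_add_point]
  exact integral_prod_mul (fun x => (fourier n x : ℂ)) (fun x => (fourier n x : ℂ))

lemma conv_prob (ρ ν : Measure UnitAddCircle) [IsProbabilityMeasure ρ] [IsProbabilityMeasure ν] :
    IsProbabilityMeasure (Measure.conv ρ ν) :=
  Measure.isProbabilityMeasure_map (by fun_prop)

lemma conv_atomless {ρ ν : Measure UnitAddCircle} [IsProbabilityMeasure ρ] [IsProbabilityMeasure ν]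
    (hν : ∀ y, ν {y} = 0) (y : UnitAddCircle) : (Measure.conv ρ ν) {y} = 0 := by
  rw [Measure.conv, Measure.map_apply (by fun_prop) (measurableSet_singleton y)]
  have hm : MeasurableSet ((fun x : UnitAddCircle × UnitAddCircle => x.1 + x.2) ⁻¹' {y}) :=
    (by fun_prop : Measurable (fun x : UnitAddCircle × UnitAddCircle => x.1 + x.2))
      (measurableSet_singleton y)
  rw [Measure.prod_apply hm]
  have h1 : ∀ x : UnitAddCircle, ν (Prod.mk x ⁻¹' ((fun x : UnitAddCircle × UnitAddCircle => x.1 + x.2) ⁻¹' {y})) = 0 := by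
    intro x
    have : Prod.mk x ⁻¹' ((fun x : UnitAddCircle × UnitAddCircle => x.1 + x.2) ⁻¹' {y}) = {y - x} := by
      ext z
      simp only [Set.mem_preimage, Set.mem_singleton_iff]
      constructor
      · intro h; rw [← h]; abel
      · intro h; rw [h]; abel
    rw [this, hν]
  simp only [h1, lintegral_zero]

lemma neg_prob (μ : Measure UnitAddCircle) [IsProbabilityMeasure μ] :
    IsProbabilityMeasure (μ.map fun x => -x) :=
  Measure.isProbabilityMeasure_map measurable_neg.aemeasurable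

lemma fourier_neg_map (μ : Measure UnitAddCircle) [IsProbabilityMeasure μ] (n : ℤ) :
    ∫ x, (fourier n x : ℂ) ∂(μ.map fun x => -x) = star (∫ x, (fourier n x : ℂ) ∂μ) := by
  rw [integral_map measurable_neg.aemeasurable (by fun_prop), Complex.star_def, ← integral_conj]
  refine integral_congr_ae (Eventually.of_forall fun x => ?_)
  simp only [fourier_apply, smul_neg, AddCircle.toCircle_neg, Circle.coe_inv_eq_conj]

lemma int_zsmul (m : ℤ) : Measurable (fun x : UnitAddCircle => m • x) :=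
  (by fun_prop : Continuous (fun x : UnitAddCircle => m • x)).measurable

lemma map_prob (m : ℤ) (μ : Measure UnitAddCircle) [IsProbabilityMeasure μ] :
    IsProbabilityMeasure (μ.map fun x => m • x) :=
  Measure.isProbabilityMeasure_map (int_zsmul m).aemeasurable

lemma fourier_map (m : ℤ) (μ : Measure UnitAddCircle) [IsProbabilityMeasure μ] (n : ℤ) :
    ∫ x, (fourier n x : ℂ) ∂(μ.map fun x => m • x) = ∫ x, (fourier (m * n) x : ℂ) ∂μ := by
  rw [integral_map (int_zsmul m).aemeasurable (by fun_prop)]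
  refine integral_congr_ae (Eventually.of_forall fun x => ?_)
  simp only [fourier_apply]
  rw [mul_comm m n, mul_smul]

lemma map_mp {m : ℤ} {p : ℕ} {μ : Measure UnitAddCircle} [IsProbabilityMeasure μ]
    (h : MeasurePreserving (fun x : UnitAddCircle => p • x) μ μ) :
    MeasurePreserving (fun x : UnitAddCircle => p • x) (μ.map fun x => m • x) (μ.map fun x => m • x) := by
  refine ⟨h.measurable, ?_⟩
  rw [Measure.map_map h.measurable (int_zsmul m)]
  conv_rhs => rw [← h.map_eq, Measure.map_map (int_zsmul m) h.measurable]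
  congr 1
  ext x
  simp only [Function.comp_apply]
  exact smul_comm p m x

lemma map_atomless {m : ℤ} (hm : m ≠ 0) {μ : Measure UnitAddCircle} [IsProbabilityMeasure μ]
    (hat : ∀ y, μ {y} = 0) (y : UnitAddCircle) : (μ.map fun x => m • x) {y} = 0 := by
  rw [Measure.map_apply (int_zsmul m) (measurableSet_singleton y)]
  by_cases h : ∃ x0 : UnitAddCircle, m • x0 = y
  · obtain ⟨x0, hx0⟩ := h
    have : NullSingletonClass μ := ⟨hat⟩
    refine measure_mono_null (t := (fun x => x + x0) '' Tors) ?_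
      ((tors_countable.image _).measure_zero μ)
    intro x hx
    refine ⟨x - x0, ?_, by simp⟩
    have h0 : m • (x - x0) = 0 := by
      rw [smul_sub, hx0]
      have : m • x = y := hx
      rw [this, sub_self]
    refine ⟨m.natAbs, by omega, ?_⟩
    rcases Int.natAbs_eq m with h | h
    · rw [h, natCast_zsmul] at h0; exact h0
    · rw [h, neg_smul, natCast_zsmul, neg_eq_zero] at h0; exact h0
  · have : (fun x : UnitAddCircle => m • x) ⁻¹' {y} = ∅ := by
      ext x
      simp only [Set.mem_preimage, Set.mem_singleton_iff, Set.mem_empty_iff_false, iff_false]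
      exact fun hx => h ⟨x, hx⟩
    rw [this, measure_empty]

/-! ### Wiener's lemma -/

/-- the averages of the coefficients converge to the mass of a point -/
lemma wiener (ν : Measure UnitAddCircle) [IsProbabilityMeasure ν] (y : UnitAddCircle) :
    Tendsto (fun N : ℕ => ∑ i ∈ range N, (N : ℂ)⁻¹ * ((fourier (-(i : ℤ)) y : ℂ) *
      ∫ x, (fourier (i : ℤ) x : ℂ) ∂ν)) atTop (𝓝 (ν.real {y} : ℂ)) := by
  have h1 : ∀ N : ℕ, ∑ i ∈ range N, (N : ℂ)⁻¹ * ((fourier (-(i : ℤ)) y : ℂ) *
      ∫ x, (fourier (i : ℤ) x : ℂ) ∂ν) =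
      ∫ x, ∑ i ∈ range N, (N : ℂ)⁻¹ * (fourier (1 : ℤ) (x - y) : ℂ) ^ i ∂ν := by
    intro N
    rw [integral_finsetSum]
    · refine sum_congr rfl fun i _ => ?_
      rw [← integral_const_mul, ← integral_const_mul]
      refine integral_congr_ae (Eventually.of_forall fun x => ?_)
      simp only
      rw [← fourier_mul_pow, one_mul, sub_eq_add_neg, fourier_add_point]
      have : (fourier (i : ℤ) (-y) : ℂ) = fourier (-(i : ℤ)) y := by
        simp only [fourier_apply]; rw [smul_neg, neg_smul]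
      rw [this]; ring
    · intro i _
      exact (by fun_prop : Continuous (fun x : UnitAddCircle =>
        (N : ℂ)⁻¹ * (fourier (1 : ℤ) (x - y) : ℂ) ^ i)).integrable_of_hasCompactSupport
          (HasCompactSupport.of_compactSpace _)
  simp only [h1]
  have h2 : (ν.real {y} : ℂ) = ∫ x, ({y} : Set UnitAddCircle).indicator (fun _ => (1 : ℂ)) x ∂ν := by
    rw [integral_indicator (measurableSet_singleton y)]
    simp [Measure.real]
  rw [h2]
  refine tendsto_integral_of_dominated_convergence (fun _ => (1 : ℝ)) (fun N => ?_)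
    (integrable_const _) (fun N => Eventually.of_forall fun x => ?_)
    (Eventually.of_forall fun x => ?_)
  · exact (by fun_prop : Continuous (fun x : UnitAddCircle =>
      ∑ i ∈ range N, (N : ℂ)⁻¹ * (fourier (1 : ℤ) (x - y) : ℂ) ^ i)).aestronglyMeasurable
  · refine (norm_sum_le _ _).trans ?_
    simp only [norm_mul, norm_pow, norm_fourier, one_pow, mul_one, norm_inv, Complex.norm_natCast,
      sum_const, card_range, nsmul_eq_mul]
    by_cases hN : N = 0
    · simp [hN]
    · rw [mul_inv_cancel₀ (by exact_mod_cast hN)]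
  · by_cases hx : x = y
    · rw [Set.indicator_of_mem (by simp [hx])]
      refine tendsto_const_nhds.congr' ?_
      filter_upwards [eventually_ge_atTop 1] with N hN
      have : (fourier (1 : ℤ) (x - y) : ℂ) = 1 := by rw [hx, sub_self]; simp
      rw [this]
      simp only [one_pow, mul_one, sum_const, card_range, nsmul_eq_mul]
      rw [mul_inv_cancel₀ (by exact_mod_cast (by omega : N ≠ 0))]
    · rw [Set.indicator_of_notMem (by simpa using hx)]
      refine avg_pow (norm_fourier 1 _) fun h => hx ?_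
      have := fourier_eq_one_iff.1 h
      rw [one_smul] at this
      exact sub_eq_zero.1 this

lemma cs_avg (c : ℕ → ℂ) (w : ℕ → ℂ) (hw : ∀ i, ‖w i‖ = 1) (N : ℕ) :
    ‖∑ i ∈ range N, (N : ℂ)⁻¹ * (w i * c i)‖ ^ 2 ≤ (1 / (N : ℝ)) * ∑ i ∈ range N, ‖c i‖ ^ 2 := by
  by_cases hN : N = 0
  · simp [hN]
  have hN0 : (0 : ℝ) < N := by exact_mod_cast Nat.pos_of_ne_zero hN
  have h1 : ‖∑ i ∈ range N, (N : ℂ)⁻¹ * (w i * c i)‖ ≤ (N : ℝ)⁻¹ * ∑ i ∈ range N, ‖c i‖ := by
    refine (norm_sum_le _ _).trans (le_of_eq ?_)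
    rw [mul_sum]
    refine sum_congr rfl fun i _ => ?_
    rw [norm_mul, norm_mul, hw, one_mul, norm_inv, Complex.norm_natCast]
  have h2 : (∑ i ∈ range N, ‖c i‖) ^ 2 ≤ N * ∑ i ∈ range N, ‖c i‖ ^ 2 := by
    have := sq_sum_le_card_mul_sum_sq (s := range N) (f := fun i => ‖c i‖)
    rwa [card_range] at this
  calc ‖∑ i ∈ range N, (N : ℂ)⁻¹ * (w i * c i)‖ ^ 2 ≤ ((N : ℝ)⁻¹ * ∑ i ∈ range N, ‖c i‖) ^ 2 := by
        gcongr
    _ = (N : ℝ)⁻¹ ^ 2 * (∑ i ∈ range N, ‖c i‖) ^ 2 := by ring
    _ ≤ (N : ℝ)⁻¹ ^ 2 * (N * ∑ i ∈ range N, ‖c i‖ ^ 2) := by gcongr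
    _ = (1 / (N : ℝ)) * ∑ i ∈ range N, ‖c i‖ ^ 2 := by field_simp

/-- a measure with coefficients tending to zero in mean square has no atoms -/
lemma atomless_of_diffuse {ν : Measure UnitAddCircle} [IsProbabilityMeasure ν]
    (h : Tendsto (fun N : ℕ => (1 / (N : ℝ)) * ∑ i ∈ range N, ‖∫ x, (fourier (i : ℤ) x : ℂ) ∂ν‖ ^ 2)
      atTop (𝓝 0)) (y : UnitAddCircle) : ν {y} = 0 := by
  have h1 := ((wiener ν y).norm.pow 2)
  have h2 : ‖(ν.real {y} : ℂ)‖ ^ 2 ≤ 0 := le_of_tendsto_of_tendsto h1 h (Eventually.of_forall fun N =>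
    cs_avg (fun i => ∫ x, (fourier (i : ℤ) x : ℂ) ∂ν) (fun i => (fourier (-(i : ℤ)) y : ℂ))
      (fun i => norm_fourier _ _) N)
  have h3 : ‖(ν.real {y} : ℂ)‖ = 0 :=
    pow_eq_zero_iff (two_ne_zero) |>.1 (le_antisymm h2 (sq_nonneg _))
  rw [norm_eq_zero, Complex.ofReal_eq_zero, Measure.real, ENNReal.toReal_eq_zero_iff] at h3
  exact h3.resolve_right (measure_ne_top _ _)

/-- the coefficients of a measure without atoms tend to zero in mean square -/
lemma diffuse_of_atomless {μ : Measure UnitAddCircle} [IsProbabilityMeasure μ]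
    (hat : ∀ y, μ {y} = 0) :
    Tendsto (fun N : ℕ => (1 / (N : ℝ)) * ∑ i ∈ range N, ‖∫ x, (fourier (i : ℤ) x : ℂ) ∂μ‖ ^ 2)
      atTop (𝓝 0) := by
  have := neg_prob μ
  have := conv_prob (μ.map fun x => -x) μ
  have h1 := wiener (Measure.conv (μ.map fun x => -x) μ) 0
  have h0 : (Measure.conv (μ.map fun x => -x) μ).real {0} = 0 := by
    rw [Measure.real, conv_atomless hat]; simp
  rw [h0] at h1
  have h2 : ∀ N : ℕ, ∑ i ∈ range N, (N : ℂ)⁻¹ * ((fourier (-(i : ℤ)) (0 : UnitAddCircle) : ℂ) *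
      ∫ x, (fourier (i : ℤ) x : ℂ) ∂(Measure.conv (μ.map fun x => -x) μ)) =
      (((1 / (N : ℝ)) * ∑ i ∈ range N, ‖∫ x, (fourier (i : ℤ) x : ℂ) ∂μ‖ ^ 2 : ℝ) : ℂ) := by
    intro N
    rw [Complex.ofReal_mul, Complex.ofReal_sum, mul_sum]
    refine sum_congr rfl fun i _ => ?_
    rw [fourier_conv, fourier_neg_map]
    have e : star (∫ x, (fourier (i : ℤ) x : ℂ) ∂μ) * ∫ x, (fourier (i : ℤ) x : ℂ) ∂μ =
        ((‖∫ x, (fourier (i : ℤ) x : ℂ) ∂μ‖ ^ 2 : ℝ) : ℂ) := by
      rw [Complex.star_def, mul_comm, Complex.mul_conj, Complex.normSq_eq_norm_sq]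
    rw [e]
    simp
  simp only [h2] at h1
  have h3 := (Complex.continuous_re.tendsto _).comp h1
  simp only [Function.comp_def, Complex.ofReal_re] at h3
  exact h3

/-! ### the theorem -/

variable {G : Subgroup (Equiv.Perm ℚ)} {τ : ℤ → G} {φ : G → ℂ} {S6 : G} {μ : Measure UnitAddCircle}

/-- the products of powers of `2` and `3` -/
def S23 : Set ℕ := {n | ∃ a b : ℕ, n = 2 ^ a * 3 ^ b}

lemma mp_S23 {μ : Measure UnitAddCircle}
    (h2 : MeasurePreserving (fun x : UnitAddCircle => 2 • x) μ μ)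
    (h3 : MeasurePreserving (fun x : UnitAddCircle => 3 • x) μ μ) :
    ∀ n ∈ S23, MeasurePreserving (fun x : UnitAddCircle => n • x) μ μ := by
  rintro n ⟨a, b, rfl⟩
  have k1 : MeasurePreserving (fun x : UnitAddCircle => 2 ^ a • x) μ μ :=
    Pool.Agent.Q190.SV.pres_pow h2 a
  have k2 : MeasurePreserving (fun x : UnitAddCircle => 3 ^ b • x) μ μ :=
    Pool.Agent.Q190.SV.pres_pow h3 b
  have := k1.comp k2
  have e : (fun x : UnitAddCircle => (2 ^ a * 3 ^ b) • x) =
      (fun x : UnitAddCircle => 2 ^ a • x) ∘ (fun x : UnitAddCircle => 3 ^ b • x) := by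
    funext x
    simp only [Function.comp_apply]
    rw [mul_smul]
  rw [e]; exact this

/-- **Singularity for measures.** -/
theorem sing_map (D : Data G τ φ S6 μ) (herg : ∀ A : Set UnitAddCircle, MeasurableSet A →
      (fun x : UnitAddCircle => 2 • x) ⁻¹' A = A → (fun x : UnitAddCircle => 3 • x) ⁻¹' A = A →
        μ A = 0 ∨ μ A = 1)
    (hne : ∃ n : ℤ, n ≠ 0 ∧ φ (τ n) ≠ 0) {ν : Measure UnitAddCircle} [IsProbabilityMeasure ν]
    (h2 : MeasurePreserving (fun x : UnitAddCircle => 2 • x) ν ν)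
    (h3 : MeasurePreserving (fun x : UnitAddCircle => 3 • x) ν ν) (hat : ∀ y, ν {y} = 0)
    {m : ℤ} (hm : m ≠ 0) :
    (Measure.conv (μ.map fun x => m • x) (ν.map fun x => m • x)) ⟂ₘ (μ.map fun x => m • x) ∧
    (Measure.conv ((μ.map fun x => m • x).map fun x => -x) (ν.map fun x => m • x)) ⟂ₘ
      (μ.map fun x => m • x) := by
  have := D.prob
  have := map_prob m μ
  have := map_prob m ν
  have hE : Q123.CV.Erg S23 (μ.map fun x => m • x) := by
    refine ⟨⟨1, 0, 0, by simp⟩, ?_, mp_S23 (map_mp D.mp2) (map_mp D.mp3), fun A hA hinv => ?_⟩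
    · rintro _ ⟨a, b, rfl⟩ _ ⟨c, d, rfl⟩
      exact ⟨a + c, b + d, by ring⟩
    · rw [Measure.map_apply (int_zsmul m) hA]
      have key : ∀ p : ℕ, p ∈ S23 → (fun x : UnitAddCircle => p • x) ⁻¹'
          ((fun x : UnitAddCircle => m • x) ⁻¹' A) = (fun x : UnitAddCircle => m • x) ⁻¹' A := by
        intro p hp
        have h5 := hinv p hp
        ext x
        simp only [Set.mem_preimage]
        rw [smul_comm m p x]
        have h6 : (m • x ∈ (fun x : UnitAddCircle => p • x) ⁻¹' A) ↔ m • x ∈ A := by rw [h5]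
        exact h6
      exact herg _ (int_zsmul m hA) (key 2 ⟨1, 0, by norm_num⟩) (key 3 ⟨0, 1, by norm_num⟩)
  have hvol : (μ.map fun x => m • x) ≠ volume := by
    intro hv
    have hz : ∀ n : ℤ, n ≠ 0 → φ (τ (m.natAbs * n)) = 0 := by
      intro n hn
      have k1 : ∀ n : ℤ, n ≠ 0 → φ (τ (m * n)) = 0 := by
        intro n hn
        rw [← D.hμ, ← fourier_map, hv]
        exact Pool.Agent.H769R3.integral_fourier_volume hn
      rcases Int.natAbs_eq m with h | h
      · rw [← h]; exact k1 n hn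
      · have e : (m.natAbs : ℤ) * n = m * (-n) := by
          conv_rhs => rw [h]
          ring
        rw [e]; exact k1 _ (neg_ne_zero.2 hn)
    obtain ⟨n, hn, hne⟩ := hne
    exact hne (all_zero D.hτ D.h1 D.hpd D.h2 (N := m.natAbs) (by omega) hz n hn)
  exact Q123.CW.singular hE (p := 2) le_rfl ⟨1, 0, by norm_num⟩ (mp_S23 (map_mp h2) (map_mp h3))
    (map_atomless hm hat) hvol

end Pool.Agent.H104.SVT
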