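import Mathlib
import Pool.Agent.H104.SVT.Conv

/-!
# Schur products of positive definite functions and the data of the theorem
-/

set_option autoImplicit false

open MeasureTheory Filter Topology Finset
open scoped ComplexOrder ENNReal

namespace Pool.Agent.H104.SVT

open Pool.Agent.W763.Tr Pool.Agent.TH654.FC

section pd

variable {Γ : Type*} [Group Γ]

lemma pd_one_nonneg {f : Γ → ℂ} (h : PD f) : 0 ≤ f 1 := by
  have := h {1} (fun _ => 1)
  simpa using this

lemma pd_inv {f : Γ → ℂ} (h : PD f) (g : Γ) : f g⁻¹ = star (f g) := by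
  have h0 := (Complex.nonneg_iff.1 (pd_one_nonneg h)).2
  have key : ∀ w : ℂ, (w * f g + star w * f g⁻¹).im = 0 := by
    intro w
    have := h.family (univ : Finset (Fin 2)) ![1, g] ![1, w]
    simp only [Fin.sum_univ_two, Matrix.cons_val_zero, Matrix.cons_val_one, inv_one, one_mul,
      mul_one, star_one, inv_mul_cancel] at this
    have h2 := (Complex.nonneg_iff.1 this).2
    have h3 : (star w * w * f 1).im = 0 := by
      have : star w * w = ((‖w‖ ^ 2 : ℝ) : ℂ) := by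
        rw [Complex.star_def, mul_comm, Complex.mul_conj, Complex.normSq_eq_norm_sq]
      rw [this, Complex.im_ofReal_mul, ← h0, mul_zero]
    simp only [Complex.add_im] at h2
    simp only [Complex.add_im]
    linarith
  have k1 := key 1
  have k2 := key Complex.I
  simp at k1 k2
  apply Complex.ext
  · simp; linarith
  · simp; linarith

lemma pd_one : PD (fun _ : Γ => (1 : ℂ)) := by
  intro s c
  have : ∑ i ∈ s, ∑ j ∈ s, star (c j) * c i * (1 : ℂ) = star (∑ i ∈ s, c i) * ∑ i ∈ s, c i := by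
    rw [star_sum, mul_comm, sum_mul_sum]
    refine sum_congr rfl fun i _ => sum_congr rfl fun j _ => ?_
    ring
  rw [this, Complex.star_def, mul_comm, Complex.mul_conj, Complex.normSq_eq_norm_sq]
  exact Complex.zero_le_real.2 (sq_nonneg _)

lemma pd_add {f g : Γ → ℂ} (hf : PD f) (hg : PD g) : PD (fun x => f x + g x) := by
  intro s c
  have : ∑ i ∈ s, ∑ j ∈ s, star (c j) * c i * (f (j⁻¹ * i) + g (j⁻¹ * i)) =
      ∑ i ∈ s, ∑ j ∈ s, star (c j) * c i * f (j⁻¹ * i) + ∑ i ∈ s, ∑ j ∈ s, star (c j) * c i * g (j⁻¹ * i) := by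
    rw [← sum_add_distrib]
    refine sum_congr rfl fun i _ => ?_
    rw [← sum_add_distrib]
    exact sum_congr rfl fun j _ => by ring
  rw [this]
  exact add_nonneg (hf s c) (hg s c)

lemma pd_smul {f : Γ → ℂ} (hf : PD f) {r : ℝ} (hr : 0 ≤ r) : PD (fun x => (r : ℂ) * f x) := by
  intro s c
  have : ∑ i ∈ s, ∑ j ∈ s, star (c j) * c i * ((r : ℂ) * f (j⁻¹ * i)) =
      (r : ℂ) * ∑ i ∈ s, ∑ j ∈ s, star (c j) * c i * f (j⁻¹ * i) := by
    rw [mul_sum]
    refine sum_congr rfl fun i _ => ?_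
    rw [mul_sum]
    exact sum_congr rfl fun j _ => by ring
  rw [this]
  exact mul_nonneg (by exact_mod_cast hr) (hf s c)

lemma pd_star {f : Γ → ℂ} (hf : PD f) : PD (fun x => star (f x)) := by
  intro s c
  have h1 := hf s (fun g => star (c g))
  have : ∑ i ∈ s, ∑ j ∈ s, star (c j) * c i * star (f (j⁻¹ * i)) =
      star (∑ i ∈ s, ∑ j ∈ s, star (star (c j)) * star (c i) * f (j⁻¹ * i)) := by
    rw [star_sum]
    refine sum_congr rfl fun i _ => ?_
    rw [star_sum]
    refine sum_congr rfl fun j _ => ?_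
    simp only [star_mul', star_star]
  rw [this]
  exact star_nonneg_iff.2 h1

lemma pd_mul {f g : Γ → ℂ} (hf : PD f) (hg : PD g) : PD (fun x => f x * g x) := by
  classical
  intro s c
  have hpsd : ∀ f : Γ → ℂ, PD f →
      (Matrix.of fun j i : s => f ((j : Γ)⁻¹ * (i : Γ))).PosSemidef := by
    intro f hf
    rw [Matrix.posSemidef_iff_dotProduct_mulVec]
    refine ⟨?_, fun x => ?_⟩
    · ext i j
      simp only [Matrix.conjTranspose_apply, Matrix.of_apply]
      rw [← pd_inv hf]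
      congr 1
      group
    · have h2 := hf.family (univ : Finset s) (fun i => (i : Γ)) x
      refine le_of_le_of_eq h2 ?_
      rw [sum_comm]
      simp only [dotProduct, Matrix.mulVec, Matrix.of_apply, Pi.star_apply, mul_sum]
      exact sum_congr rfl fun i _ => sum_congr rfl fun j _ => by ring
  have hH := (hpsd f hf).hadamard (hpsd g hg)
  rw [Matrix.posSemidef_iff_dotProduct_mulVec] at hH
  have h2 := hH.2 (fun i : s => c i)
  refine le_of_le_of_eq h2 ?_
  simp only [dotProduct, Matrix.mulVec, Matrix.hadamard_apply, Matrix.of_apply,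
    Pi.star_apply, mul_sum]
  rw [sum_comm]
  rw [← sum_coe_sort s (fun i => ∑ j ∈ s, star (c j) * c i * (f (j⁻¹ * i) * g (j⁻¹ * i)))]
  refine sum_congr rfl fun i _ => ?_
  rw [← sum_coe_sort s (fun j => star (c j) * c i * (f (j⁻¹ * i) * g (j⁻¹ * i)))]
  refine sum_congr rfl fun j _ => ?_
  ring

lemma pd_pow {f : Γ → ℂ} (hf : PD f) (n : ℕ) : PD (fun x => f x ^ n) := by
  induction n with
  | zero => simpa using pd_one
  | succ n ih =>
    simp only [pow_succ]
    exact pd_mul ih hf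

lemma pd_pow_sub {f g : Γ → ℂ} (hf : PD f) (hg : PD g) (h : PD (fun x => f x - g x)) (n : ℕ) :
    PD (fun x => f x ^ n - g x ^ n) := by
  induction n with
  | zero =>
    intro s c
    simp
  | succ n ih =>
    have h1 := pd_add (pd_mul (pd_pow hf n) h) (pd_mul ih hg)
    have e : (fun x => f x ^ (n + 1) - g x ^ (n + 1)) =
        fun x => f x ^ n * (f x - g x) + (f x ^ n - g x ^ n) * g x := by
      funext x; ring
    rw [e]; exact h1

end pd

/-- positive definite functions on `ℤ` -/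
def PZ (f : ℤ → ℂ) : Prop := PD (fun n : Multiplicative ℤ => f n.toAdd)

lemma PZ.fam {f : ℤ → ℂ} (h : PZ f) {ι : Type*} (s : Finset ι) (x : ι → ℤ) (a : ι → ℂ) :
    0 ≤ ∑ i ∈ s, ∑ j ∈ s, star (a j) * a i * f (x i - x j) := by
  have := PD.family h s (fun i => Multiplicative.ofAdd (x i)) a
  refine le_of_le_of_eq this ?_
  refine sum_congr rfl fun i _ => sum_congr rfl fun j _ => ?_
  congr 2
  simp only [toAdd_mul, toAdd_inv, toAdd_ofAdd]
  ring

lemma pz_meas (ρ : Measure UnitAddCircle) [IsFiniteMeasure ρ] : PZ (fun n => ∫ x, (fourier n x : ℂ) ∂ρ) := by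
  intro s c
  have h1 := quad_eq ρ s c (fun i => i.toAdd)
  have h2 : ∑ i ∈ s, ∑ j ∈ s, star (c j) * c i * ∫ x, (fourier (j⁻¹ * i).toAdd x : ℂ) ∂ρ =
      ∑ i ∈ s, ∑ j ∈ s, star (c j) * c i * ∫ x, (fourier (i.toAdd - j.toAdd) x : ℂ) ∂ρ := by
    refine sum_congr rfl fun i _ => sum_congr rfl fun j _ => ?_
    congr 2
    simp only [toAdd_mul, toAdd_inv]
    congr 1
    ext x
    congr 2
    ring
  rw [h2, h1]
  exact_mod_cast integral_nonneg fun x => by positivity

lemma pz_herglotz {f : ℤ → ℂ} (h : PZ f) (h0 : f 0 = 1) :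
    ∃ μ : Measure UnitAddCircle, IsProbabilityMeasure μ ∧ ∀ n : ℤ, ∫ x, (fourier n x : ℂ) ∂μ = f n := by
  obtain ⟨μ, hμ, hc⟩ := spectral h (by simpa using h0) (Multiplicative.ofAdd 1)
  refine ⟨μ, hμ, fun n => ?_⟩
  rw [hc]
  congr 1
  simp

/-- a measure with a coefficient equal to one lives on points of finite order -/
lemma ae_one {μ : Measure UnitAddCircle} [IsProbabilityMeasure μ] {D : ℤ}
    (h : ∫ x, (fourier D x : ℂ) ∂μ = 1) : ∀ᵐ x ∂μ, D • x = 0 := by
  have h1 := int_re μ D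
  rw [h] at h1
  simp only [Complex.one_re, sub_self] at h1
  have h2 : ∀ x : UnitAddCircle, 0 ≤ (1 - (fourier D x).re : ℝ) := fun x =>
    le_trans (by positivity) (re_lower D x)
  have hint : Integrable (fun x : UnitAddCircle => (1 - (fourier D x).re : ℝ)) μ :=
    (re_cont D).integrable_of_hasCompactSupport (HasCompactSupport.of_compactSpace _)
  have h3 := (integral_eq_zero_iff_of_nonneg (fun x => h2 x) hint).1 h1.symm
  filter_upwards [h3] with x hx
  have h4 := re_lower D x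
  have h5 : (1 - (fourier D x).re : ℝ) = 0 := hx
  rw [h5] at h4
  have h6 : ‖D • x‖ = 0 := by
    have := norm_nonneg (D • x)
    nlinarith [sq_nonneg ‖D • x‖]
  exact norm_eq_zero.1 h6

lemma exists_atom {μ : Measure UnitAddCircle} [IsProbabilityMeasure μ] {M : ℕ} (hM : 1 ≤ M)
    (h : ∀ᵐ x ∂μ, (M : ℤ) • x = 0) : ∃ x0 : UnitAddCircle, (M : ℤ) • x0 = 0 ∧ 0 < μ.real {x0} := by
  by_contra hcon
  push Not at hcon
  have h0 : ∀ x0 : UnitAddCircle, (M : ℤ) • x0 = 0 → μ {x0} = 0 := by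
    intro x0 hx0
    have h1 := le_antisymm (hcon x0 hx0) measureReal_nonneg
    rw [Measure.real, ENNReal.toReal_eq_zero_iff] at h1
    exact h1.resolve_right (measure_ne_top _ _)
  have hc : {x : UnitAddCircle | (M : ℤ) • x = 0}.Countable := by
    refine tors_countable.mono ?_
    intro x hx
    have h1 : (M : ℤ) • x = 0 := hx
    rw [natCast_zsmul] at h1
    exact ⟨M, hM, h1⟩
  have h2 : μ {x : UnitAddCircle | (M : ℤ) • x = 0} = 0 := by
    have e : {x : UnitAddCircle | (M : ℤ) • x = 0} =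
        ⋃ x ∈ {x : UnitAddCircle | (M : ℤ) • x = 0}, {x} := (Set.biUnion_of_singleton _).symm
    rw [e, measure_biUnion_null_iff hc]
    exact fun x hx => h0 x hx
  have h3 : μ Set.univ = 0 := by
    refine measure_mono_null (t := {x : UnitAddCircle | (M : ℤ) • x = 0} ∪
      {x : UnitAddCircle | ¬ ((M : ℤ) • x = 0)}) ?_ (measure_union_null h2 (ae_iff.1 h))
    intro x _
    exact em _
  rw [measure_univ] at h3
  exact one_ne_zero h3

variable {G : Subgroup (Equiv.Perm ℚ)} {τ : ℤ → G} {φ : G → ℂ} {S6 : G} {μ : Measure UnitAddCircle}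

lemma pz_tau (D : Data G τ φ S6 μ) : PZ (fun n => φ (τ n)) := by
  have := D.prob
  have h := pz_meas μ
  simpa only [D.hμ] using h

/-- **A power dominates the trace**, if the trace lives on points of finite order. -/
theorem dominated (D : Data G τ φ S6 μ) {M : ℕ} (hM1 : 1 ≤ M) (hM : ∀ n : ℤ, φ (τ (M * n)) = 1) :
    ∃ w : ℝ, 0 < w ∧ PZ (fun n => φ (τ n) ^ (M + 1) - w * φ (τ n)) := by
  have := D.prob
  have hae : ∀ᵐ x ∂μ, (M : ℤ) • x = 0 := ae_one (D := (M : ℤ)) (by
    rw [D.hμ]; simpa using hM 1)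
  obtain ⟨x0, hx0, hw⟩ := exists_atom hM1 hae
  set w := μ.real {x0} with hwdef
  have hm : MeasurableSet ({x0} : Set UnitAddCircle) := measurableSet_singleton x0
  have hg : ∀ n : ℤ, ∫ x, (fourier n x : ℂ) ∂(μ.restrict {x0}) = w * fourier n x0 := by
    intro n
    rw [integral_singleton, Complex.real_smul]
  have hsub : ∀ n : ℤ, φ (τ n) - ∫ x, (fourier n x : ℂ) ∂(μ.restrict {x0}) =
      ∫ x, (fourier n x : ℂ) ∂(μ.restrict {x0}ᶜ) := by
    intro n
    rw [← D.hμ, ← integral_add_compl hm (int_fourier n μ)]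
    ring
  have h1 : PZ (fun n => φ (τ n) - ∫ x, (fourier n x : ℂ) ∂(μ.restrict {x0})) := by
    simp only [hsub]
    exact pz_meas _
  have h2 : PZ (fun n => φ (τ n) ^ M - (∫ x, (fourier n x : ℂ) ∂(μ.restrict {x0})) ^ M) :=
    pd_pow_sub (pz_tau D) (pz_meas _) h1 M
  have h3 : PZ (fun n => (φ (τ n) ^ M - (∫ x, (fourier n x : ℂ) ∂(μ.restrict {x0})) ^ M) * φ (τ n)) :=
    pd_mul h2 (pz_tau D)
  refine ⟨w ^ M, pow_pos hw M, ?_⟩
  have e : (fun n => φ (τ n) ^ (M + 1) - ((w ^ M : ℝ) : ℂ) * φ (τ n)) =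
      fun n => (φ (τ n) ^ M - (∫ x, (fourier n x : ℂ) ∂(μ.restrict {x0})) ^ M) * φ (τ n) := by
    funext n
    rw [hg, mul_pow, ← fourier_mul_pow]
    have h5 : (fourier (n * (M : ℤ)) x0 : ℂ) = 1 := by
      rw [fourier_eq_one_iff, mul_smul, hx0, smul_zero]
    rw [h5]
    push_cast; ring
  rw [e]; exact h3

/-- positive definiteness on the translations from positive definiteness on `ℤ` -/
lemma pd_trans (D : Data G τ φ S6 μ) {F : ℂ → ℂ} (hF : PZ (fun n => F (φ (τ n)))) (s : Finset G)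
    (a : G → ℂ) (hs : ∀ i ∈ s, ∃ r : ℚ, ∀ x : ℚ, (i : Equiv.Perm ℚ) x = x + r) :
    0 ≤ ∑ i ∈ s, ∑ j ∈ s, star (a j) * a i * F (φ (j⁻¹ * i)) := by
  have hch : ∀ i : G, ∃ (n : ℤ) (k : ℕ), i ∈ s → ∀ x, (i : Equiv.Perm ℚ) x = x + n / 6 ^ k := by
    intro i
    by_cases hi : i ∈ s
    · obtain ⟨r, hr⟩ := hs i hi
      obtain ⟨n, k, rfl⟩ := D.six hr
      exact ⟨n, k, fun _ => hr⟩
    · exact ⟨0, 0, fun h => absurd h hi⟩
  choose n0 k0 hn0 using hch
  set K := s.sup k0 with hK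
  set n : G → ℤ := fun i => n0 i * 6 ^ (K - k0 i) with hn
  have hbt : ∀ i ∈ s, ∀ x, (i : Equiv.Perm ℚ) x = x + n i / 6 ^ K := by
    intro i hi x
    rw [hn0 i hi x, hn]
    have hle : k0 i ≤ K := Finset.le_sup hi
    have e : (6 : ℚ) ^ K = 6 ^ (K - k0 i) * 6 ^ k0 i := by rw [← pow_add]; congr 1; omega
    have h6 : (6 : ℚ) ^ (K - k0 i) ≠ 0 := by positivity
    have h6' : (6 : ℚ) ^ (k0 i) ≠ 0 := by positivity
    push_cast
    rw [e]
    field_simp
  have hval : ∀ i ∈ s, ∀ j ∈ s, φ (j⁻¹ * i) = φ (τ (n i - n j)) := by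
    intro i hi j hj
    refine phi_trans D.hτ D.hcl S6 D.hS6 _ _ K fun x => ?_
    rw [Subgroup.coe_mul, Equiv.Perm.mul_apply, Subgroup.coe_inv, Equiv.Perm.inv_eq_iff_eq,
      hbt i hi, hbt j hj]
    push_cast
    ring
  have h1 := hF.fam s n a
  refine le_of_le_of_eq h1 ?_
  refine sum_congr rfl fun i hi => sum_congr rfl fun j hj => ?_
  rw [hval i hi j hj]

/-- and conversely -/
lemma pz_of_trans (hτ : ∀ (k : ℤ) (x : ℚ), (τ k : Equiv.Perm ℚ) x = x + k) {F : ℂ → ℂ}
    (h : ∀ (s : Finset G) (a : G → ℂ), (∀ i ∈ s, ∃ r : ℚ, ∀ x : ℚ, (i : Equiv.Perm ℚ) x = x + r) →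
      0 ≤ ∑ i ∈ s, ∑ j ∈ s, star (a j) * a i * F (φ (j⁻¹ * i))) : PZ (fun n => F (φ (τ n))) := by
  classical
  intro s c
  have h0 : ∀ n : ℤ, ⌊((τ n : Equiv.Perm ℚ) 0)⌋ = n := by
    intro n; rw [hτ]; simp
  have h1 := h (s.image fun n => τ n.toAdd)
    (fun g => c (Multiplicative.ofAdd ⌊((g : Equiv.Perm ℚ) 0)⌋)) (by
      intro i hi
      obtain ⟨n, -, rfl⟩ := mem_image.1 hi
      exact ⟨n.toAdd, hτ _⟩)
  have hinj : ∀ a b : Multiplicative ℤ, τ a.toAdd = τ b.toAdd → a = b := by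
    intro a b hab
    have e := h0 a.toAdd
    rw [hab, h0] at e
    exact (Multiplicative.toAdd.injective e).symm
  rw [sum_image (fun a _ b _ hab => hinj a b hab)] at h1
  refine le_of_le_of_eq h1 ?_
  refine sum_congr rfl fun i _ => ?_
  rw [sum_image (fun a _ b _ hab => hinj a b hab)]
  refine sum_congr rfl fun j _ => ?_
  rw [h0, h0]
  simp only [ofAdd_toAdd]
  congr 3
  rw [tau_inv hτ, tau_add hτ]
  congr 1

/-- **Domination excludes singularity.** -/
theorem nonsing {f : ℤ → ℂ} {μ ρ : Measure UnitAddCircle} [IsProbabilityMeasure μ]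
    [IsProbabilityMeasure ρ] (hμ : ∀ n : ℤ, ∫ x, (fourier n x : ℂ) ∂μ = f n) {k : ℕ} {c : ℝ}
    (hc : 0 < c) (h : PZ (fun n => f n ^ k - c * f n))
    (hρ : ∀ n : ℤ, ∫ x, (fourier n x : ℂ) ∂ρ = f n ^ k) : ¬ ρ ⟂ₘ μ := by
  intro hs
  have h0 : f 0 = 1 := by rw [← hμ]; simp
  set c' : ℝ := min c (1 / 2) with hc'
  have hc'0 : 0 < c' := lt_min hc (by norm_num)
  have hc'1 : c' ≤ 1 / 2 := min_le_right _ _
  have hfz : PZ f := by
    have := pz_meas μ
    simpa only [hμ] using this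
  have h1 : PZ (fun n => f n ^ k - c' * f n) := by
    have h2 : PZ (fun n => (f n ^ k - c * f n) + ((c - c' : ℝ) : ℂ) * f n) :=
      pd_add h (pd_smul hfz (sub_nonneg.2 (min_le_left _ _)))
    have e : (fun n => f n ^ k - c' * f n) =
        (fun n => (f n ^ k - c * f n) + ((c - c' : ℝ) : ℂ) * f n) := by
      funext n; push_cast; ring
    rw [e]; exact h2
  have h1c : (0 : ℝ) < 1 - c' := by linarith
  have h3 : PZ (fun n => (((1 - c')⁻¹ : ℝ) : ℂ) * (f n ^ k - c' * f n)) :=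
    pd_smul h1 (inv_nonneg.2 h1c.le)
  have hne : (1 - (c' : ℂ)) ≠ 0 := by
    have : ((1 - c' : ℝ) : ℂ) ≠ 0 := by exact_mod_cast h1c.ne'
    simpa using this
  obtain ⟨κ, hκ, hκc⟩ := pz_herglotz h3 (by
    rw [h0]; push_cast; rw [one_pow, mul_one]; exact inv_mul_cancel₀ hne)
  have hsum : ENNReal.ofReal c' + ENNReal.ofReal (1 - c') = 1 := by
    rw [← ENNReal.ofReal_add hc'0.le h1c.le]; simp
  have hprob : IsProbabilityMeasure (ENNReal.ofReal c' • μ + ENNReal.ofReal (1 - c') • κ) := by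
    refine ⟨?_⟩
    simp only [Measure.add_apply, Measure.smul_apply, measure_univ, smul_eq_mul, mul_one]
    exact hsum
  have heq : ρ = ENNReal.ofReal c' • μ + ENNReal.ofReal (1 - c') • κ := by
    refine Q123.CV.ext_fourier fun n => ?_
    change ∫ x, (fourier n x : ℂ) ∂ρ = ∫ x, (fourier n x : ℂ) ∂(_)
    rw [hρ, integral_add_measure ((int_fourier n μ).smul_measure ENNReal.ofReal_ne_top)
      ((int_fourier n κ).smul_measure ENNReal.ofReal_ne_top), integral_smul_measure,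
      integral_smul_measure, hμ, hκc, ENNReal.toReal_ofReal hc'0.le, ENNReal.toReal_ofReal h1c.le,
      Complex.real_smul, Complex.real_smul]
    push_cast
    rw [← mul_assoc, mul_inv_cancel₀ hne, one_mul]
    ring
  have hac : μ ≪ ρ := by
    rw [heq]
    intro A hA
    rw [Measure.add_apply, add_eq_zero] at hA
    have h5 := hA.1
    rw [Measure.smul_apply, smul_eq_mul, mul_eq_zero] at h5
    refine h5.resolve_left ?_
    simpa using hc'0
  have h6 : μ = 0 := Measure.eq_zero_of_absolutelyContinuous_of_mutuallySingular hac hs.symm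
  exact IsProbabilityMeasure.ne_zero μ h6

end Pool.Agent.H104.SVT
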