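import Mathlib
import Pool.Agent.H104.SVT.Pdf

/-!
# Products of an extreme trace with a diffuse trace are singular to it
-/

set_option autoImplicit false

open MeasureTheory Filter Topology Finset
open scoped ComplexOrder ENNReal

namespace Pool.Agent.H104.SVT

open Pool.Agent.W763.Tr Pool.Agent.TH654.FC

variable {G : Subgroup (Equiv.Perm ℚ)} {τ : ℤ → G} {φ : G → ℂ} {S6 : G} {μ : Measure UnitAddCircle}

/-- `μ` is the spectral distribution of `g` under `φ` -/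
def Spec (φ : G → ℂ) (g : G) (μ : Measure UnitAddCircle) : Prop :=
  IsProbabilityMeasure μ ∧ ∀ n : ℤ, ∫ x, (fourier n x : ℂ) ∂μ = φ (g ^ n)

lemma Spec.unique {φ : G → ℂ} {g : G} {μ ν : Measure UnitAddCircle} (h : Spec φ g μ)
    (h' : Spec φ g ν) : μ = ν := by
  have := h.1
  have := h'.1
  exact Q123.CV.ext_fourier fun n => (h.2 n).trans (h'.2 n).symm

lemma zpow_apply {g : G} {r : ℚ} (hg : ∀ x : ℚ, (g : Equiv.Perm ℚ) x = x + r) (n : ℤ) (x : ℚ) :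
    ((g ^ n : G) : Equiv.Perm ℚ) x = x + n * r := by
  obtain ⟨a, rfl | rfl⟩ := n.eq_nat_or_neg
  · rw [zpow_natCast, pow_apply hg]; push_cast; rfl
  · rw [zpow_neg, zpow_natCast, Subgroup.coe_inv, Equiv.Perm.inv_eq_iff_eq, pow_apply hg]
    push_cast; ring

lemma val_zpow (D : Data G τ φ S6 μ) {g : G} {m : ℤ} {k : ℕ}
    (hg : ∀ x : ℚ, (g : Equiv.Perm ℚ) x = x + m / 6 ^ k) (n : ℤ) : φ (g ^ n) = φ (τ (m * n)) := by
  refine phi_trans D.hτ D.hcl S6 D.hS6 (g ^ n) (m * n) k fun x => ?_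
  rw [zpow_apply hg]
  push_cast; ring

lemma exists_num (D : Data G τ φ S6 μ) {g : G} (hg1 : g ≠ 1)
    (hg : ∃ r : ℚ, ∀ x : ℚ, (g : Equiv.Perm ℚ) x = x + r) :
    ∃ (m : ℤ) (k : ℕ), m ≠ 0 ∧ ∀ x : ℚ, (g : Equiv.Perm ℚ) x = x + m / 6 ^ k := by
  obtain ⟨r, hr⟩ := hg
  obtain ⟨m, k, rfl⟩ := D.six hr
  refine ⟨m, k, ?_, hr⟩
  rintro rfl
  apply hg1
  apply Subtype.ext
  apply Equiv.ext
  intro x
  rw [hr]; simp

lemma spec_map (D : Data G τ φ S6 μ) {g : G} {m : ℤ} {k : ℕ}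
    (hg : ∀ x : ℚ, (g : Equiv.Perm ℚ) x = x + m / 6 ^ k) : Spec φ g (μ.map fun x => m • x) := by
  have := D.prob
  refine ⟨map_prob m μ, fun n => ?_⟩
  rw [fourier_map, D.hμ, val_zpow D hg]

lemma unique_tau {τ' : ℤ → G} (h : ∀ (k : ℤ) (x : ℚ), (τ k : Equiv.Perm ℚ) x = x + k)
    (h' : ∀ (k : ℤ) (x : ℚ), (τ' k : Equiv.Perm ℚ) x = x + k) : τ' = τ := by
  funext k
  apply Subtype.ext
  apply Equiv.ext
  intro x
  rw [h, h']

lemma tau_of_u {u : G} (hτ : ∀ (k : ℤ) (x : ℚ), (τ k : Equiv.Perm ℚ) x = x + k)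
    (hu : ∀ x : ℚ, (u : Equiv.Perm ℚ) x = x + 1) (n : ℤ) : u ^ n = τ n := by
  apply Subtype.ext
  apply Equiv.ext
  intro x
  rw [zpow_apply hu, hτ, mul_one]

/-- the traces -/
def Tr (φ : G → ℂ) : Prop := φ 1 = 1 ∧ (∀ g h : G, φ (h * g * h⁻¹) = φ g) ∧
  ∀ (s : Finset G) (c : G → ℂ), 0 ≤ ∑ i ∈ s, ∑ j ∈ s, star (c j) * c i * φ (j⁻¹ * i)

/-- **Singularity.** -/
theorem mainA {s2 s3 t : Equiv.Perm ℚ} (hs2 : ∀ x, s2 x = 2 * x) (hs3 : ∀ x, s3 x = 3 * x)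
    (ht : ∀ x, t x = x + 1) (hG : G = Subgroup.closure {s2, s3, t}) {u : G}
    (hu : ∀ x : ℚ, (u : Equiv.Perm ℚ) x = x + 1) {φ : G → ℂ}
    (hext : φ ∈ Set.extremePoints ℝ {ψ : G → ℂ | Tr ψ})
    (hne : φ ≠ Set.indicator ({1} : Set G) (fun _ => (1 : ℂ))) {ψ : G → ℂ} (hψ : Tr ψ)
    (hdiff : Tendsto (fun N : ℕ => (1 / (N : ℝ)) * ∑ i ∈ range N, ‖ψ (u ^ i)‖ ^ 2) atTop (𝓝 0))
    {g : G} (hg1 : g ≠ 1) (hg : ∃ r : ℚ, ∀ x : ℚ, (g : Equiv.Perm ℚ) x = x + r) :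
    ∃ μ ν ν' : Measure UnitAddCircle, Spec φ g μ ∧ Spec (fun h => φ h * ψ h) g ν ∧
      Spec (fun h => star (φ h) * ψ h) g ν' ∧ ν ⟂ₘ μ ∧ ν' ⟂ₘ μ := by
  obtain ⟨h1, hcl, hpd⟩ := hext.1
  obtain ⟨τ, S6, μ, D⟩ := data_of hs2 hs3 ht hG h1 hcl hpd
  obtain ⟨τ', S6', ν, D'⟩ := data_of hs2 hs3 ht hG hψ.1 hψ.2.1 hψ.2.2
  obtain rfl := unique_tau D.hτ D'.hτ
  have := D.prob
  have := D'.prob
  obtain ⟨m, k, hm, hgm⟩ := exists_num D hg1 hg
  have hνat : ∀ y, ν {y} = 0 := by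
    refine atomless_of_diffuse (hdiff.congr fun N => ?_)
    congr 1
    refine sum_congr rfl fun i _ => ?_
    rw [D'.hμ, ← tau_of_u D'.hτ hu, zpow_natCast]
  have p1 := map_prob m μ
  have p2 := map_prob m ν
  have p3 := neg_prob (μ.map fun x => m • x)
  have s1 := spec_map D hgm
  have s2 := spec_map D' hgm
  refine ⟨μ.map fun x => m • x, Measure.conv (μ.map fun x => m • x) (ν.map fun x => m • x),
    Measure.conv ((μ.map fun x => m • x).map fun x => -x) (ν.map fun x => m • x), s1,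
    ⟨conv_prob _ _, fun n => ?_⟩, ⟨conv_prob _ _, fun n => ?_⟩, ?_⟩
  · rw [fourier_conv, s1.2, s2.2]
  · rw [fourier_conv, fourier_neg_map, s1.2, s2.2]
  rcases Pool.Agent.TH463.UQ.finite_or_atomless D hext with hfd | hat
  · -- the atomic case
    obtain ⟨M, hM1, hM⟩ := exists_kernel D.hτ D.hμ D.h2 hfd
    have hae : ∀ᵐ x ∂μ, (M : ℤ) • x = 0 := ae_one (D := (M : ℤ)) (by
      rw [D.hμ]; simpa using hM 1)
    have hT : (μ.map fun x => m • x) Torsᶜ = 0 := by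
      rw [Measure.map_apply (int_zsmul m) tors_meas.compl]
      refine measure_mono_null ?_ (ae_iff.1 hae)
      intro x hx h0
      apply hx
      refine ⟨M, hM1, ?_⟩
      change M • (m • x) = 0
      rw [smul_comm, ← natCast_zsmul x M, h0, smul_zero]
    have key : ∀ ρ : Measure UnitAddCircle, IsProbabilityMeasure ρ →
        (Measure.conv ρ (ν.map fun x => m • x)) ⟂ₘ (μ.map fun x => m • x) := by
      intro ρ hρ
      refine ⟨Tors, tors_meas, ?_, hT⟩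
      have : NullSingletonClass (Measure.conv ρ (ν.map fun x => m • x)) :=
        ⟨conv_atomless (map_atomless hm hνat)⟩
      exact tors_countable.measure_zero _
    exact ⟨key _ p1, key _ p3⟩
  · refine sing_map D (fun A hA e2 e3 => erg_of_ext hs2 hs3 ht hG D hat hext hA e2 e3) ?_ D'.mp2
      D'.mp3 hνat hm
    by_contra hcon
    push Not at hcon
    apply hne
    funext h
    by_cases hh : h = 1
    · rw [hh, h1]; simp
    · rw [eq_regular D.hτ D.h1 D.hcl D.hpd S6 D.hS6 D.hform hcon h hh]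
      simp [hh]

lemma tr_mul {φ ψ : G → ℂ} (h : Tr φ) (h' : Tr ψ) : Tr (fun g => φ g * ψ g) :=
  ⟨by simp [h.1, h'.1], fun g k => by simp only [h.2.1, h'.2.1], pd_mul h.2.2 h'.2.2⟩

lemma tr_star {φ : G → ℂ} (h : Tr φ) : Tr (fun g => star (φ g)) :=
  ⟨by simp [h.1], fun g k => by simp only [h.2.1], pd_star h.2.2⟩

lemma tr_pow {φ : G → ℂ} (h : Tr φ) (n : ℕ) : Tr (fun g => φ g ^ n) :=
  ⟨by simp [h.1], fun g k => by simp only [h.2.1], pd_pow h.2.2 n⟩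

lemma Tr.norm_le {φ : G → ℂ} (h : Tr φ) (g : G) : ‖φ g‖ ≤ 1 := by
  have h1 := pd_cs h.2.2 h.1 (univ : Finset Unit) (fun _ => g) (fun _ => 1)
  simp only [univ_unique, sum_singleton, one_mul, star_one, mul_one, inv_mul_cancel, h.1,
    Complex.one_re] at h1
  exact (sq_le_one_iff₀ (norm_nonneg _)).1 h1

/-- **The criterion.** -/
theorem mainB {s2 s3 t : Equiv.Perm ℚ} (hs2 : ∀ x, s2 x = 2 * x) (hs3 : ∀ x, s3 x = 3 * x)
    (ht : ∀ x, t x = x + 1) (hG : G = Subgroup.closure {s2, s3, t}) {u : G}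
    (hu : ∀ x : ℚ, (u : Equiv.Perm ℚ) x = x + 1) {φ : G → ℂ}
    (hext : φ ∈ Set.extremePoints ℝ {ψ : G → ℂ | Tr ψ}) :
    List.TFAE [
      φ = Set.indicator ({1} : Set G) (fun _ => (1 : ℂ)) ∨
        FiniteDimensional ℂ (Submodule.span ℂ {F : G → ℂ | ∃ n : G,
          (∃ r : ℚ, ∀ x : ℚ, (n : Equiv.Perm ℚ) x = x + r) ∧ F = fun x => φ (n * x)}),
      ∃ (k : ℕ) (c : ℝ), 2 ≤ k ∧ 0 < c ∧ ∀ (s : Finset G) (a : G → ℂ),
        (∀ i ∈ s, ∃ r : ℚ, ∀ x : ℚ, (i : Equiv.Perm ℚ) x = x + r) →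
          0 ≤ ∑ i ∈ s, ∑ j ∈ s, star (a j) * a i * (φ (j⁻¹ * i) ^ k - c * φ (j⁻¹ * i)),
      ∃ (j k : ℕ) (g : G), 2 ≤ j + k ∧ g ≠ 1 ∧ (∃ r : ℚ, ∀ x : ℚ, (g : Equiv.Perm ℚ) x = x + r) ∧
        ∃ μ ν : Measure UnitAddCircle, Spec φ g μ ∧ Spec (fun h => star (φ h) ^ j * φ h ^ k) g ν ∧
          ¬ ν ⟂ₘ μ] := by
  classical
  obtain ⟨h1, hcl, hpd⟩ := hext.1
  obtain ⟨τ, S6, μ, D⟩ := data_of hs2 hs3 ht hG h1 hcl hpd
  have := D.prob
  tfae_have 1 → 2 := by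
    rintro (h | h)
    · refine ⟨2, 1, le_rfl, one_pos, fun s a _ => ?_⟩
      refine le_of_eq (Eq.symm ?_)
      refine sum_eq_zero fun i _ => sum_eq_zero fun j _ => ?_
      rw [h]
      by_cases e : j⁻¹ * i = 1
      · rw [e]; simp
      · rw [Set.indicator_of_notMem (by simpa using e)]; simp
    · obtain ⟨M, hM1, hM⟩ := exists_kernel D.hτ D.hμ D.h2 h
      obtain ⟨w, hw, hP⟩ := dominated D hM1 hM
      refine ⟨M + 1, w, by omega, hw, fun s a hs => ?_⟩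
      exact pd_trans D (F := fun z => z ^ (M + 1) - w * z) hP s a hs
  tfae_have 2 → 3 := by
    rintro ⟨k, c, hk, hc, h⟩
    have hP : PZ (fun n => φ (τ n) ^ k - c * φ (τ n)) :=
      pz_of_trans (F := fun z => z ^ k - c * z) D.hτ h
    have hpk : PZ (fun n => φ (τ n) ^ k) := pd_pow (pz_tau D) k
    obtain ⟨ρ, hρ, hρc⟩ := pz_herglotz hpk (by rw [tau_zero D.hτ, h1, one_pow])
    refine ⟨0, k, u, by omega, ?_, ⟨1, hu⟩, μ, ρ, ⟨D.prob, fun n => ?_⟩, ⟨hρ, fun n => ?_⟩,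
      nonsing D.hμ hc hP hρc⟩
    · intro e
      have := hu 0
      rw [e] at this
      simp at this
    · rw [D.hμ, tau_of_u D.hτ hu]
    · rw [hρc, tau_of_u D.hτ hu]; simp
  tfae_have 3 → 1 := by
    rintro ⟨j, k, g, hjk, hg1, hg, μ', ρ', hμ', hρ', hns⟩
    by_contra hcon
    push Not at hcon
    obtain ⟨hne, hnfd⟩ := hcon
    have hat := (Pool.Agent.TH463.UQ.finite_or_atomless D hext).resolve_left hnfd
    have hφd : Tendsto (fun N : ℕ => (1 / (N : ℝ)) * ∑ i ∈ range N, ‖φ (u ^ i)‖ ^ 2) atTop (𝓝 0) := by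
      refine (diffuse_of_atomless hat).congr fun N => ?_
      congr 1
      refine sum_congr rfl fun i _ => ?_
      rw [D.hμ, ← tau_of_u D.hτ hu, zpow_natCast]
    have hdiff : ∀ a b : ℕ, 1 ≤ a + b → Tendsto (fun N : ℕ => (1 / (N : ℝ)) *
        ∑ i ∈ range N, ‖star (φ (u ^ i)) ^ a * φ (u ^ i) ^ b‖ ^ 2) atTop (𝓝 0) := by
      intro a b hab
      refine squeeze_zero (fun N => by positivity) (fun N => ?_) hφd
      refine mul_le_mul_of_nonneg_left (sum_le_sum fun i _ => ?_) (by positivity)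
      rw [norm_mul, norm_pow, norm_pow, norm_star, ← pow_add]
      refine pow_le_pow_left₀ (by positivity) ?_ 2
      exact pow_le_of_le_one (norm_nonneg _) (Tr.norm_le hext.1 _) (by omega)
    rcases Nat.eq_zero_or_pos k with rfl | hk
    · obtain ⟨μ1, ν, ν', e1, -, e3, -, e5⟩ := mainA hs2 hs3 ht hG hu hext hne
        (ψ := fun h => star (φ h) ^ (j - 1) * φ h ^ 0)
        (tr_mul (tr_pow (tr_star hext.1) _) (tr_pow hext.1 _)) (hdiff _ _ (by omega)) hg1 hg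
      have e6 : μ' = μ1 := hμ'.unique e1
      have e7 : ρ' = ν' := by
        refine hρ'.unique ⟨e3.1, fun n => ?_⟩
        rw [e3.2]
        simp only [pow_zero, mul_one]
        rw [← pow_succ']
        congr 1
        omega
      rw [e6, e7] at hns
      exact hns e5
    · obtain ⟨μ1, ν, ν', e1, e2, -, e4, -⟩ := mainA hs2 hs3 ht hG hu hext hne
        (ψ := fun h => star (φ h) ^ j * φ h ^ (k - 1))
        (tr_mul (tr_pow (tr_star hext.1) _) (tr_pow hext.1 _)) (hdiff _ _ (by omega)) hg1 hg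
      have e6 : μ' = μ1 := hμ'.unique e1
      have e7 : ρ' = ν := by
        refine hρ'.unique ⟨e2.1, fun n => ?_⟩
        rw [e2.2]
        simp only
        obtain ⟨l, rfl⟩ : ∃ l, k = l + 1 := ⟨k - 1, by omega⟩
        simp only [Nat.add_sub_cancel]
        ring
      rw [e6, e7] at hns
      exact hns e4
  tfae_finish

end Pool.Agent.H104.SVT
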